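import Pool.Agent.Y601.LD.Main

set_option autoImplicit false
set_option linter.unusedSectionVars false

/-!
Decision trees with comparisons and leaves of low rank: the general bound for codes with large dual
distance and a selection gadget.
-/

namespace Pool.Agent.Y601.LD

open Finset Pool.Agent.H532R2.MC

variable {m : ℕ} {O : Type} [Fintype O] [DecidableEq O]

/-- the number of the strings `x` with a given combined string, for fixed `y` -/
theorem card_comb_fix (y : (Fin m → O) × (Fin m → Bool)) (E : Finset (Fin m → Bool)) :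
    (univ.filter fun x : Fin m × O → Bool => comb x y ∈ E).card * 2 ^ m =
      2 ^ (m * Fintype.card O) * E.card := by
  classical
  -- shifts
  let sh : (Fin m → Bool) → (Fin m × O → Bool) → (Fin m × O → Bool) := fun t x q =>
    x q ^^ (if q.2 = y.1 q.1 then t q.1 else false)
  have hsh : ∀ t x, comb (sh t x) y = fun i => comb x y i ^^ t i := by
    intro t x
    funext i
    simp only [comb, sh, if_true]
    cases x (i, y.1 i) <;> cases t i <;> cases y.2 i <;> rfl
  have hinv : ∀ t x, sh t (sh t x) = x := by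
    intro t x
    funext q
    simp only [sh]
    cases x q <;> cases (if q.2 = y.1 q.1 then t q.1 else false) <;> rfl
  have h1 : ∀ t : Fin m → Bool, (univ.filter fun x : Fin m × O → Bool =>
      (fun i => comb x y i ^^ t i) ∈ E).card =
      (univ.filter fun x : Fin m × O → Bool => comb x y ∈ E).card := by
    intro t
    refine Finset.card_bij' (fun x _ => sh t x) (fun x _ => sh t x) ?_ ?_ ?_ ?_
    · intro x hx
      refine mem_filter.2 ⟨mem_univ _, ?_⟩
      rw [hsh]
      exact (mem_filter.1 hx).2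
    · intro x hx
      refine mem_filter.2 ⟨mem_univ _, ?_⟩
      have h2 := (mem_filter.1 hx).2
      rw [← hsh, hinv]
      exact h2
    · intro x _; exact hinv t x
    · intro x _; exact hinv t x
  have h2 : ∀ x : Fin m × O → Bool, (univ.filter fun t : Fin m → Bool =>
      (fun i => comb x y i ^^ t i) ∈ E).card = E.card := by
    intro x
    refine Finset.card_bij' (fun t _ => fun i => comb x y i ^^ t i)
      (fun t _ => fun i => comb x y i ^^ t i) ?_ ?_ ?_ ?_
    · intro t ht
      exact (mem_filter.1 ht).2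
    · intro t ht
      refine mem_filter.2 ⟨mem_univ _, ?_⟩
      have h3 : (fun i => comb x y i ^^ (comb x y i ^^ t i)) = t := by
        funext i
        cases comb x y i <;> cases t i <;> rfl
      rw [h3]
      exact ht
    · intro t _
      funext i
      exact Pool.Agent.Y601.GS.xor_cancel _ _
    · intro t _
      funext i
      exact Pool.Agent.Y601.GS.xor_cancel _ _
  have h3 : ∑ t : Fin m → Bool, (univ.filter fun x : Fin m × O → Bool =>
      (fun i => comb x y i ^^ t i) ∈ E).card =
      ∑ x : Fin m × O → Bool, (univ.filter fun t : Fin m → Bool =>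
      (fun i => comb x y i ^^ t i) ∈ E).card := by
    simp only [Finset.card_filter]
    exact Finset.sum_comm
  rw [Finset.sum_congr rfl fun t _ => h1 t, Finset.sum_congr rfl fun x _ => h2 x,
    Finset.sum_const, Finset.sum_const, card_univ, card_univ, Fintype.card_fun, Fintype.card_fun,
    Fintype.card_prod, Fintype.card_fin, Fintype.card_bool, smul_eq_mul, smul_eq_mul] at h3
  rw [mul_comm]
  exact h3

variable {Ω : Type} [Fintype Ω]

/-- **The general bound.** -/
theorem abs_tree {X' Y' : Type} (hΩ : 0 < Fintype.card Ω) (e : Ω → Fin m → Bool)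
    (hO : 1 ≤ Fintype.card O) {d : ℕ} (hd : 2 * d ≤ m)
    (he : ∀ S : Finset (Fin m), 1 ≤ S.card → S.card < 2 * d → ∑ ω, chi S (e ω) = 0)
    (G : (Fin m → O) × (Fin m → Bool) → Finset (Fin m → Bool))
    (hG : ∀ y ω, e ω ∈ G y) {W : ℝ} (hW : 0 < W) (hGW : ∀ y, ((G y).card : ℝ) * W ≤ 2 ^ m)
    (f : (Fin m × O → Bool) → X') (g : (Fin m → O) × (Fin m → Bool) → Y')
    (T : CmpTree X' Y' (LowRank X' Y'))
    (hyes : ∀ x y ω, comb x y = e ω → 0 < (T.label (f x) (g y)).val (f x) (g y))
    (hno : ∀ x y, comb x y ∉ G y → (T.label (f x) (g y)).val (f x) (g y) ≤ 0) :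
    (Fintype.card O : ℝ) ^ d ≤ 2 * (T.total fun l => l.r + 1 : ℕ) ∨
      W ≤ 6 * (T.total fun l => l.r + 1 : ℕ) ^ 2 := by
  classical
  have hO' : (0 : ℝ) < Fintype.card O := by exact_mod_cast hO
  have hcX : Fintype.card (Fin m × O → Bool) = 2 ^ (m * Fintype.card O) := by
    rw [Fintype.card_fun, Fintype.card_prod, Fintype.card_fin, Fintype.card_bool]
  have hcY : Fintype.card ((Fin m → O) × (Fin m → Bool)) = Fintype.card O ^ m * 2 ^ m := by
    rw [Fintype.card_prod, Fintype.card_fun, Fintype.card_fun, Fintype.card_fin,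
      Fintype.card_bool]
  -- a large rectangle on which a single leaf is reached
  obtain ⟨l, A, B, -, -, hlab, hA, hB⟩ := stair (fun l : LowRank X' Y' => l.r + 1)
    (fun l => Nat.le_add_left 1 _) f g T
    univ univ ⟨fun _ => false, mem_univ _⟩
    (by
      have : 0 < Fintype.card ((Fin m → O) × (Fin m → Bool)) := by rw [hcY]; positivity
      obtain ⟨y⟩ := Fintype.card_pos_iff.1 this
      exact ⟨y, mem_univ _⟩)
  rw [card_univ, hcX] at hA
  rw [card_univ, hcY] at hB
  obtain ⟨t, ht⟩ : ∃ t : ℕ, t = T.total fun l => l.r + 1 := ⟨_, rfl⟩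
  rw [← ht] at hA hB ⊢
  have ht1 : 1 ≤ t := by
    rw [ht]
    exact total_pos _ (fun l => Nat.le_add_left 1 _) T
  have hy : ∀ x ∈ A, ∀ y ∈ B, ∀ ω, comb x y = e ω → 0 < l.val (f x) (g y) := by
    intro x hx y hy ω h
    have h0 := hyes x y ω h
    rwa [hlab x hx y hy] at h0
  -- a lower bound for the positive values
  obtain ⟨θ, hθ0, hθ⟩ : ∃ θ : ℝ, 0 < θ ∧ ∀ x ∈ A, ∀ y ∈ B, ∀ ω, comb x y = e ω →
      θ ≤ l.val (f x) (g y) := by
    let P : Finset ((Fin m × O → Bool) × ((Fin m → O) × (Fin m → Bool))) :=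
      univ.filter fun q => q.1 ∈ A ∧ q.2 ∈ B ∧ ∃ ω, comb q.1 q.2 = e ω
    let R : Finset ℝ := insert 1 (P.image fun q => l.val (f q.1) (g q.2))
    have hR : R.Nonempty := ⟨1, mem_insert_self _ _⟩
    refine ⟨R.min' hR, ?_, fun x hx y hy ω h => ?_⟩
    · rw [Finset.lt_min'_iff]
      intro b hb
      rcases mem_insert.1 hb with rfl | hb
      · exact one_pos
      · obtain ⟨q, hq, rfl⟩ := mem_image.1 hb
        obtain ⟨h1, h2, ω, hω⟩ := (mem_filter.1 hq).2
        exact hy _ h1 _ h2 ω hω
    · exact Finset.min'_le _ _ (mem_insert_of_mem (mem_image.2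
        ⟨(x, y), mem_filter.2 ⟨mem_univ _, hx, hy, ω, h⟩, rfl⟩))
  have hn : ∀ x ∈ A, ∀ y ∈ B, comb x y ∉ G y → l.val (f x) (g y) ≤ 0 := by
    intro x hx y hy h
    have h0 := hno x y h
    rwa [hlab x hx y hy] at h0
  -- the exceptional set
  let E : Finset ((Fin m × O → Bool) × ((Fin m → O) × (Fin m → Bool))) :=
    univ.filter fun q => comb q.1 q.2 ∈ G q.2
  have hEc : (E.card : ℝ) ≤ 2 ^ (m * Fintype.card O) * ((Fintype.card O : ℝ) ^ m * 2 ^ m) / W := by
    have h1 : E.card = ∑ y, (univ.filter fun x : Fin m × O → Bool => comb x y ∈ G y).card := by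
      simp only [E, Finset.card_filter]
      rw [Fintype.sum_prod_type, Finset.sum_comm]
    have h2 : ∀ y, ((univ.filter fun x : Fin m × O → Bool => comb x y ∈ G y).card : ℝ) ≤
        2 ^ (m * Fintype.card O) / W := by
      intro y
      have h3 : (((univ.filter fun x : Fin m × O → Bool => comb x y ∈ G y).card * 2 ^ m : ℕ) : ℝ) =
          ((2 ^ (m * Fintype.card O) * (G y).card : ℕ) : ℝ) := by
        exact_mod_cast card_comb_fix y (G y)
      push_cast at h3
      rw [le_div_iff₀ hW]
      have h4 : (0 : ℝ) < 2 ^ m := by positivity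
      refine le_of_mul_le_mul_right ?_ h4
      calc ((univ.filter fun x : Fin m × O → Bool => comb x y ∈ G y).card : ℝ) * W * 2 ^ m =
            (((univ.filter fun x : Fin m × O → Bool => comb x y ∈ G y).card : ℝ) * 2 ^ m) * W := by
            ring
        _ = 2 ^ (m * Fintype.card O) * ((G y).card * W) := by rw [h3]; ring
        _ ≤ 2 ^ (m * Fintype.card O) * 2 ^ m := mul_le_mul_of_nonneg_left (hGW y) (by positivity)
    rw [h1]
    push_cast
    refine (Finset.sum_le_sum fun y _ => h2 y).trans (le_of_eq ?_)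
    rw [Finset.sum_const, card_univ, hcY, nsmul_eq_mul]
    push_cast
    ring
  have hdno : ∀ y t, t ∉ G y → Pool.Agent.Y601.GS.dens e t = -1 := by
    intro y t ht
    unfold Pool.Agent.Y601.GS.dens
    have h1 : (univ.filter fun ω => e ω = t) = ∅ := by
      refine filter_false_of_mem fun ω _ h => ht ?_
      rw [← h]
      exact hG y ω
    rw [h1]
    simp
  have hPQ : (Fintype.card ((Fin m → O) × (Fin m → Bool)) : ℝ) ≤
      ((Fintype.card O : ℝ) ^ m * 2 ^ (m * Fintype.card O) /
        (Fintype.card O : ℝ) ^ (2 * d)) * 2 ^ m := by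
    rw [hcY]
    push_cast
    have h1 : (Fintype.card O : ℝ) ^ (2 * d) ≤ 2 ^ (m * Fintype.card O) := by
      calc (Fintype.card O : ℝ) ^ (2 * d) ≤ (2 ^ Fintype.card O) ^ (2 * d) :=
            pow_le_pow_left₀ hO'.le (by exact_mod_cast (Nat.lt_two_pow_self).le) _
        _ = 2 ^ (Fintype.card O * (2 * d)) := (pow_mul _ _ _).symm
        _ ≤ 2 ^ (m * Fintype.card O) := by
            refine pow_le_pow_right₀ (by norm_num) ?_
            rw [mul_comm]
            exact Nat.mul_le_mul_right _ hd
    refine mul_le_mul_of_nonneg_right ?_ (by positivity)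
    rw [le_div_iff₀ (by positivity)]
    exact mul_le_mul_of_nonneg_left h1 (by positivity)
  have key := rect_forster (X := Fin m × O → Bool) (Y := (Fin m → O) × (Fin m → Bool))
    (fun x y => Pool.Agent.Y601.GS.dens e (comb x y)) E
    (P := (Fintype.card O : ℝ) ^ m * 2 ^ (m * Fintype.card O) /
        (Fintype.card O : ℝ) ^ (2 * d)) (Q := 2 ^ m) (by positivity) (by positivity)
    (fun a b s hs => scalar_bound hΩ e d hO he a b hs)
    (fun x y h => hdno y _ fun h' => h (mem_filter.2 ⟨mem_univ _, h'⟩))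
    (fun x y => by
      unfold Pool.Agent.Y601.GS.dens
      have : (0 : ℝ) ≤ 2 ^ m * (((univ.filter fun ω => e ω = comb x y).card : ℝ) /
        Fintype.card Ω) := by positivity
      linarith) hPQ A B (r := l.r + 1) (Nat.succ_pos _)
    (fun x => Fin.snoc (fun k => l.u (f x) k) (-(θ / 2)))
    (fun y => Fin.snoc (fun k => l.v (g y) k) 1)
    (fun x hx y hy h => by
      have h1 : comb x y ∉ G y := fun h' => h (mem_filter.2 ⟨mem_univ _, h'⟩)
      have h2 := hn x hx y hy h1
      unfold LowRank.val at h2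
      rw [dotProduct, Fin.sum_univ_castSucc]
      simp only [Fin.snoc_castSucc, Fin.snoc_last]
      linarith)
    (fun x hx y hy _ h => by
      have h1 : (univ.filter fun ω => e ω = comb x y).Nonempty := by
        by_contra hcon
        rw [Finset.not_nonempty_iff_eq_empty] at hcon
        refine h ?_
        unfold Pool.Agent.Y601.GS.dens
        rw [hcon]
        simp
      obtain ⟨ω, hω⟩ := h1
      have h2 := hθ x hx y hy ω (mem_filter.1 hω).2.symm
      unfold LowRank.val at h2
      rw [dotProduct, Fin.sum_univ_castSucc]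
      simp only [Fin.snoc_castSucc, Fin.snoc_last]
      linarith)
  refine final_arith (a := A.card) (b := B.card) (x := 2 ^ (m * Fintype.card O))
    (y := (Fintype.card O : ℝ) ^ m * 2 ^ m) (w := (l.r + 1 : ℕ)) (t := t)
    (q := (Fintype.card O : ℝ) ^ d) (e := W) (by positivity) (by positivity)
    (Nat.cast_nonneg _) (Nat.cast_nonneg _) (by push_cast; linarith [(Nat.cast_nonneg l.r : (0 : ℝ) ≤ l.r)])
    (by exact_mod_cast ht1) (by positivity) hW (by exact_mod_cast hA)
    (by exact_mod_cast hB) ?_
  refine key.trans (mul_le_mul_of_nonneg_left ?_ (Nat.cast_nonneg _))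
  refine add_le_add (le_of_eq ?_) (mul_le_mul_of_nonneg_left hEc (by norm_num))
  congr 1
  rw [← pow_mul, mul_comm d 2]
  ring

end Pool.Agent.Y601.LD
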