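import Pool.Agent.Y601.LD.Junta

set_option autoImplicit false
set_option linter.unusedSectionVars false

/-!
Threshold trees and labelled examples of DNF formulas.
-/

namespace Pool.Agent.Y601.LD.Dnf

open Finset Pool.Agent.H532R2.MC Pool.Agent.Y601.LD Pool.Agent.Y601.LD.Hash
  Pool.Agent.Y601.LD.Corr Pool.Agent.Y601.LD.Junta

variable {X' Y' : Type} {n m : ℕ}

/-- An AND of literals: `some true` at `j` is the literal `x j`, `some false` is its negation, and
`none` means that the variable number `j` does not occur. -/
abbrev Term (n : ℕ) : Type := Fin n → Option Bool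

open Classical in
/-- The value of the OR of the terms in `D` at `x`. -/
noncomputable def dnfValue (D : Finset (Term n)) (x : Fin n → Bool) : Bool :=
  decide (∃ t ∈ D, ∀ j b, t j = some b → x j = b)

/-- The number of gates of the formula: one AND for each term, and the OR. -/
def size (D : Finset (Term n)) : ℕ := D.card + 1

open Classical in
/-- The probability that `φ A y ≤ 0` for the labels `y` given by the formula `D`, for `m` uniformly
random examples `A`. -/
noncomputable def errDnf (D : Finset (Term n)) (φ : (Fin m → Fin n → Bool) → (Fin m → Bool) → ℝ) :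
    ℝ :=
  ((univ.filter fun A : Fin m → Fin n → Bool =>
    φ A (fun r => dnfValue D (A r)) ≤ 0).card : ℝ) / Fintype.card (Fin m → Fin n → Bool)

open Classical in
/-- The probability that `0 < φ A y`, for `m` uniformly random examples `A` and random labels `y`. -/
noncomputable def errRandom (φ : (Fin m → Fin n → Bool) → (Fin m → Bool) → ℝ) : ℝ :=
  ((univ.filter fun p : (Fin m → Fin n → Bool) × (Fin m → Bool) => 0 < φ p.1 p.2).card : ℝ) /
    (Fintype.card (Fin m → Fin n → Bool) * Fintype.card (Fin m → Bool))

/-- the parity of the variables in `S` -/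
def par (S : Finset (Fin n)) (x : Fin n → Bool) : Bool :=
  decide (Odd (S.filter fun j => x j = true).card)

theorem par_only (S : Finset (Fin n)) : OnlyOn S (par S) := by
  intro x x' h
  unfold par
  rw [Finset.filter_congr fun j hj => by rw [h j hj]]

/-- flipping a coordinate -/
theorem par_flip (S : Finset (Fin n)) {j : Fin n} (hj : j ∈ S) (x : Fin n → Bool) :
    par S (Function.update x j (!x j)) = !par S x := by
  have h1 : sg (par S (Function.update x j (!x j))) = -sg (par S x) := by
    have h2 : ∀ x : Fin n → Bool, sg (par S x) = ∏ i ∈ S, sg (x i) := by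
      intro x
      have := Sparse.sg_colSum (m := 1) (fun p : Fin 1 × Fin n => x p.2) S 0
      exact this
    rw [h2, h2, ← Finset.mul_prod_erase S _ hj, ← Finset.mul_prod_erase S _ hj,
      Function.update_self]
    have h3 : ∏ i ∈ S.erase j, sg (Function.update x j (!x j) i) = ∏ i ∈ S.erase j, sg (x i) :=
      Finset.prod_congr rfl fun i hi => by
        rw [Function.update_of_ne (Finset.ne_of_mem_erase hi)]
    rw [h3]
    cases x j <;> simp [sg]
  revert h1
  cases par S (Function.update x j (!x j)) <;> cases par S x <;> simp [sg] <;> norm_num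

theorem par_balanced {k : ℕ} (S : Finset (Fin n)) (hS : S.card = k) (hk : 1 ≤ k) :
    Balanced (k - 1) (par S) := by
  classical
  intro T hT z
  have h1 : ∃ j ∈ S, j ∉ T := by
    by_contra h
    push Not at h
    have := card_le_card (show S ⊆ T from fun j hj => h j hj)
    omega
  obtain ⟨j, hj, hjT⟩ := h1
  have h2 : (univ.filter fun x : Fin n → Bool => (∀ i ∈ T, x i = z i) ∧ par S x = true).card =
      (univ.filter fun x : Fin n → Bool => (∀ i ∈ T, x i = z i) ∧ ¬ par S x = true).card := by
    refine card_bij' (fun x _ => Function.update x j (!x j)) (fun x _ => Function.update x j (!x j))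
      ?_ ?_ ?_ ?_
    · intro x hx
      obtain ⟨h3, h4⟩ := (mem_filter.1 hx).2
      refine mem_filter.2 ⟨mem_univ _, fun i hi => ?_, ?_⟩
      · rw [Function.update_of_ne fun h => hjT (by rwa [← h]), h3 i hi]
      · rw [par_flip S hj, h4]
        decide
    · intro x hx
      obtain ⟨h3, h4⟩ := (mem_filter.1 hx).2
      refine mem_filter.2 ⟨mem_univ _, fun i hi => ?_, ?_⟩
      · rw [Function.update_of_ne fun h => hjT (by rwa [← h]), h3 i hi]
      · rw [par_flip S hj, Bool.eq_false_iff.2 h4]
        decide
    · intro x _
      simp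
    · intro x _
      simp
  have h3 := Finset.card_filter_add_card_filter_not
    (s := univ.filter fun x : Fin n → Bool => ∀ i ∈ T, x i = z i) (fun x => par S x = true)
  rw [Finset.filter_filter, Finset.filter_filter] at h3
  omega

/-- the formula for the parity -/
noncomputable def parDnf (S : Finset (Fin n)) : Finset (Term n) := by
  classical
  exact (S.powerset.filter fun R => Odd R.card).image fun R j =>
    if j ∈ S then some (decide (j ∈ R)) else none

theorem parDnf_value (S : Finset (Fin n)) (x : Fin n → Bool) : dnfValue (parDnf S) x = par S x := by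
  classical
  unfold dnfValue par parDnf
  rw [decide_eq_decide]
  constructor
  · rintro ⟨t, ht, h⟩
    obtain ⟨R, hR, rfl⟩ := mem_image.1 ht
    obtain ⟨hRS, hodd⟩ := mem_filter.1 hR
    have h1 : (S.filter fun j => x j = true) = R := by
      ext j
      constructor
      · intro hj
        obtain ⟨h2, h3⟩ := mem_filter.1 hj
        have h4 := h j (decide (j ∈ R)) (by simp only [if_pos h2])
        rw [h3] at h4
        exact of_decide_eq_true h4.symm
      · intro hj
        have h2 := mem_powerset.1 hRS hj
        have h4 := h j (decide (j ∈ R)) (by simp only [if_pos h2])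
        exact mem_filter.2 ⟨h2, by rw [h4]; exact decide_eq_true hj⟩
    rw [h1]
    exact hodd
  · intro hodd
    refine ⟨fun j => if j ∈ S then some (decide (j ∈ S.filter fun j => x j = true)) else none,
      mem_image.2 ⟨S.filter fun j => x j = true, mem_filter.2
        ⟨mem_powerset.2 (filter_subset _ _), hodd⟩, rfl⟩, ?_⟩
    intro j b h
    by_cases hj : j ∈ S
    · simp only [if_pos hj, Option.some.injEq] at h
      rw [← h]
      cases hx : x j
      · symm
        apply decide_eq_false
        intro h5
        have := (mem_filter.1 h5).2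
        rw [hx] at this
        exact absurd this (by decide)
      · symm
        apply decide_eq_true
        exact mem_filter.2 ⟨hj, hx⟩
    · simp only [if_neg hj] at h
      exact absurd h (by simp)

theorem parDnf_size (S : Finset (Fin n)) : size (parDnf S) ≤ 2 ^ S.card := by
  classical
  unfold size parDnf
  have h1 : ((S.powerset.filter fun R => Odd R.card).image fun (R : Finset (Fin n)) (j : Fin n) =>
      if j ∈ S then some (decide (j ∈ R)) else none).card ≤
        (S.powerset.filter fun R => Odd R.card).card := card_image_le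
  have h2 : (S.powerset.filter fun R => Odd R.card).card < S.powerset.card := by
    refine card_lt_card ⟨filter_subset _ _, fun h => ?_⟩
    have h3 := (mem_filter.1 (h (mem_powerset.2 (empty_subset S)))).2
    rw [card_empty] at h3
    exact absurd h3 (by decide)
  rw [card_powerset] at h2
  omega

/-- **Trees and labelled examples of DNF formulas.** -/
theorem dnf_N {k N s : ℕ} (hk : 1 ≤ k) (hs : 2 ^ k ≤ s) (hN0 : 1 ≤ N) (hN : N ≤ n.choose k)
    (hm : 2 * N * n.choose k ≤ 2 ^ m)
    (f : (Fin m → Fin n → Bool) → X') (g : (Fin m → Bool) → Y')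
    (T : CmpTree X' Y' (LowRank X' Y'))
    (h1 : ∀ D : Finset (Term n), size D ≤ s →
      errDnf D (fun A y => (T.label (f A) (g y)).val (f A) (g y)) ≤ 1 / (4 * N))
    (h2 : errRandom (fun A y => (T.label (f A) (g y)).val (f A) (g y)) ≤ 1 / (4 * N)) :
    N ≤ 6 * (T.total fun l => l.r + 1) ^ 2 := by
  classical
  have hkn : k ≤ n := by
    by_contra h
    rw [Nat.choose_eq_zero_of_lt (by omega)] at hN
    omega
  obtain ⟨φ, hφ⟩ : ∃ φ : (Fin m → Fin n → Bool) → (Fin m → Bool) → ℝ,
      φ = fun A y => (T.label (f A) (g y)).val (f A) (g y) := ⟨_, rfl⟩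
  rw [← hφ] at h1 h2
  have hcard : Fintype.card {S : Finset (Fin n) // S.card = k} = n.choose k := by
    rw [Fintype.card_finset_len, Fintype.card_fin]
  have hCp : 0 < n.choose k := Nat.choose_pos hkn
  refine junta_N (c := k - 1) (k := k) (by omega) hkn hN0 ?_ hm (fun S => par S.1)
    (fun S => par_only S.1) (fun S => par_balanced S.1 S.2 hk) f g T ?_ ?_
  · rw [Nat.sub_add_cancel hk, Nat.choose_self, one_pow, mul_one]
    exact hN
  · rw [← hφ]
    unfold missYes
    have h3 : (univ.filter fun p : {S : Finset (Fin n) // S.card = k} × (Fin m → Fin n → Bool) =>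
        φ p.2 (labels (fun S : {S : Finset (Fin n) // S.card = k} => par S.1) p.1 p.2) ≤ 0).card =
        ∑ S : {S : Finset (Fin n) // S.card = k}, (univ.filter fun A : Fin m → Fin n → Bool =>
          φ A (fun r => dnfValue (parDnf S.1) (A r)) ≤ 0).card := by
      simp only [Finset.card_filter]
      rw [Fintype.sum_prod_type]
      refine Finset.sum_congr rfl fun S _ => Finset.sum_congr rfl fun A _ => ?_
      have h4 : labels (fun S : {S : Finset (Fin n) // S.card = k} => par S.1) S A =
          fun r => dnfValue (parDnf S.1) (A r) := by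
        funext r
        rw [parDnf_value]
        rfl
      rw [h4]
    rw [h3, hcard]
    obtain ⟨M, hM⟩ : ∃ M : ℝ, M = Fintype.card (Fin m → Fin n → Bool) := ⟨_, rfl⟩
    have hM0 : 0 < M := by rw [hM]; exact_mod_cast Fintype.card_pos
    rw [← hM]
    have h5 : ∀ S : {S : Finset (Fin n) // S.card = k}, ((univ.filter fun
        A : Fin m → Fin n → Bool => φ A (fun r => dnfValue (parDnf S.1) (A r)) ≤ 0).card : ℝ) ≤
        1 / (4 * N) * M := by
      intro S
      have h6 := h1 (parDnf S.1) ((parDnf_size S.1).trans (by rw [S.2]; exact hs))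
      unfold errDnf at h6
      rw [← hM, div_le_iff₀ hM0] at h6
      exact h6
    rw [div_le_iff₀ (by positivity)]
    push_cast
    refine (Finset.sum_le_sum fun S _ => h5 S).trans (le_of_eq ?_)
    rw [Finset.sum_const, nsmul_eq_mul, card_univ, hcard]
    ring
  · rw [← hφ]
    refine le_trans ?_ h2
    unfold missNo errRandom
    refine div_le_div_of_nonneg_right ?_ (by positivity)
    refine Nat.cast_le.2 (card_le_card ?_)
    intro p hp
    simp only [mem_filter, mem_univ, true_and] at hp ⊢
    exact hp.2

theorem dnf_circ {k N s : ℕ} (hk : 1 ≤ k) (hs : 2 ^ k ≤ s) (hN0 : 1 ≤ N) (hN : N ≤ n.choose k)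
    (hm : 2 * N * n.choose k ≤ 2 ^ m) (R : ℕ)
    (T : CmpTree (Fin m × Fin n → Bool) (Fin m → Bool) (BitCircuit (Fin m × Fin n) (Fin m) R))
    (h1 : ∀ D : Finset (Term n), size D ≤ s →
      errDnf D (fun A y => (T.label (exBits A) y).val (exBits A) y) ≤ 1 / (4 * N))
    (h2 : errRandom (fun A y => (T.label (exBits A) y).val (exBits A) y) ≤ 1 / (4 * N)) :
    N ≤ 6 * ((2 * R + 1) * T.total fun c => c.S + 1) ^ 2 := by
  have h3 : (fun (A : Fin m → Fin n → Bool) (y : Fin m → Bool) =>
      ((T.map bitLow).label (exBits A) y).val (exBits A) y) =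
        fun A y => (T.label (exBits A) y).val (exBits A) y := by
    funext x y
    rw [map_label, bitLow_val]
  have h4 := dnf_N hk hs hN0 hN hm exBits (fun y => y) (T.map bitLow)
    (fun D hD => by rw [h3]; exact h1 D hD) (by rw [h3]; exact h2)
  exact h4.trans (Nat.mul_le_mul_left _ (Nat.pow_le_pow_left (bit_total T) 2))

end Pool.Agent.Y601.LD.Dnf
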