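import Pool.Agent.Y601.LD.BitDefs

set_option autoImplicit false

/-!
Games with projection constraints, the weights of the constraints are 0 and 1.
-/

namespace Pool.Agent.Y601.LD.Game

open Finset

/-- A constraint of a game with `n` vertices on each side and the labels `0, …, q - 1` on both sides:
the left end, the right end and a map of the labels. -/
abbrev Con (n q : ℕ) : Type := Fin n × Fin n × (Fin q → Fin q)

/-- Every fiber of every map has at most `D` elements. -/
def Fibers {n q N : ℕ} (D : ℕ) (C : Fin N → Con n q) : Prop :=
  ∀ t b, (univ.filter fun a => (C t).2.2 a = b).card ≤ D

/-- The number of the constraints of weight one (`w t = true`). -/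
def present {N : ℕ} (w : Fin N → Bool) : ℕ := (univ.filter fun t => w t = true).card

/-- The number of the constraints of weight one which are satisfied by the labellings `l` of the left
vertices and `l'` of the right vertices: the map takes the label of the left end to the label of the
right end. -/
def satisfied {n q N : ℕ} (C : Fin N → Con n q) (w : Fin N → Bool) (l l' : Fin n → Fin q) : ℕ :=
  (univ.filter fun t => w t = true ∧ (C t).2.2 (l (C t).1) = l' (C t).2.1).card

/-- The function `φ` of the constraints and of the weights tells the games of value one from those of
value at most `δ`, if all fibers have at most `D` elements: it is positive if all constraints of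
weight one can be satisfied; it is not positive if there is a constraint of weight one and all pairs
of labellings satisfy at most the fraction `δ` of the constraints of weight one. -/
def Tells {n q N : ℕ} (D : ℕ) (δ : ℝ) (φ : (Fin N → Con n q) → (Fin N → Bool) → ℝ) : Prop :=
  ∀ (C : Fin N → Con n q) (w : Fin N → Bool), Fibers D C →
    ((∃ l l', satisfied C w l l' = present w) → 0 < φ C w) ∧
    ((1 ≤ present w ∧ ∀ l l', (satisfied C w l l' : ℝ) ≤ δ * present w) → φ C w ≤ 0)

/-- The bits of the constraints: the bit number `(t, u, v, a, b)` says that the constraint number `t`
has the ends `u` and `v`, and that its map takes `a` to `b`. -/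
def conBits {n q N : ℕ} (C : Fin N → Con n q) (p : Fin N × Fin n × Fin n × Fin q × Fin q) : Bool :=
  decide ((C p.1).1 = p.2.1 ∧ (C p.1).2.1 = p.2.2.1 ∧ (C p.1).2.2 p.2.2.2.1 = p.2.2.2.2)

end Pool.Agent.Y601.LD.Game
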