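import Pool.Agent.Y601.LD.VCTwo
import Pool.Agent.Y601.LD.GameDefs

set_option autoImplicit false
set_option linter.unusedSectionVars false

/-!
Games with bijective constraints: a gap for one system.
-/

namespace Pool.Agent.Y601.LD.Game

open Finset Pool.Agent.H532R2.MC Pool.Agent.Y601.LD

variable {s k' r : ℕ}

/-- the numbering of the bits -/
def idx (b : Fin (s * k')) (a : Fin r) : Fin (s * k' * r) := finProdFinEquiv (b, a)

/-- the checks between two strings -/
def chp (c : Fin s → Fin (k' + 1) → Fin s) (z z' : Fin s → Bool) (b : Fin (s * k')) : Bool :=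
  z (c (finProdFinEquiv.symm b).1 0) ^^ z' (c (finProdFinEquiv.symm b).1
    (finProdFinEquiv.symm b).2.succ)

theorem chp_self (c : Fin s → Fin (k' + 1) → Fin s) (z : Fin s → Bool) (b : Fin (s * k')) :
    chp c z z b = chk c z b := rfl

/-- the checks for `r` strings -/
def chks (c : Fin s → Fin (k' + 1) → Fin s) (z : Fin r → Fin s → Bool)
    (q : Fin (s * k' * r)) : Bool :=
  chk c (z (finProdFinEquiv.symm q).2) (finProdFinEquiv.symm q).1

theorem chks_idx (c : Fin s → Fin (k' + 1) → Fin s) (z : Fin r → Fin s → Bool)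
    (b : Fin (s * k')) (a : Fin r) : chks c z (idx b a) = chk c (z a) b := by
  unfold chks idx
  rw [Equiv.symm_apply_apply]

theorem idx_inj {b b' : Fin (s * k')} {a a' : Fin r} (h : idx b a = idx b' a') :
    b = b' ∧ a = a' := by
  have h1 := finProdFinEquiv.injective h
  rwa [Prod.mk.injEq] at h1

/-- the character sums vanish -/
theorem sum_chi_chks {g : ℕ} (c : Fin s → Fin (k' + 1) → Fin s)
    (hc : ∀ J : Finset (Fin s), 1 ≤ J.card → J.card ≤ g → k' * J.card < (imgk c J).card)
    (S : Finset (Fin (s * k' * r))) (hS1 : 1 ≤ S.card) (hS2 : S.card ≤ g) :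
    ∑ z, chi S (chks c z) = 0 := by
  classical
  let Sa : Fin r → Finset (Fin (s * k')) := fun a => univ.filter fun b => idx b a ∈ S
  have h1 : ∀ z : Fin r → Fin s → Bool, chi S (chks c z) =
      ∏ a, (fun (a : Fin r) (w : Fin s → Bool) => chi (Sa a) (chk c w)) a (z a) := by
    intro z
    have h2 : chi S (chks c z) = ∏ q, if q ∈ S then sg (chks c z q) else 1 := by
      unfold chi
      rw [Finset.prod_ite_mem, univ_inter]
    rw [h2, ← Equiv.prod_comp finProdFinEquiv, Fintype.prod_prod_type_right]
    refine Finset.prod_congr rfl fun a _ => ?_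
    simp only [chi, Sa]
    rw [Finset.prod_filter]
    refine Finset.prod_congr rfl fun b _ => ?_
    have h3 : chks c z (finProdFinEquiv (b, a)) = chk c (z a) b := chks_idx c z b a
    rw [h3]
    rfl
  have h4 : ∑ z : Fin r → Fin s → Bool,
      ∏ a, (fun (a : Fin r) (w : Fin s → Bool) => chi (Sa a) (chk c w)) a (z a) =
        ∏ a, ∑ w : Fin s → Bool, chi (Sa a) (chk c w) := by
    rw [Finset.prod_univ_sum, Fintype.piFinset_univ]
  rw [Finset.sum_congr rfl fun z _ => h1 z, h4]
  obtain ⟨q, hq⟩ := card_pos.1 hS1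
  obtain ⟨a, ha⟩ : ∃ a, a = (finProdFinEquiv.symm q : Fin (s * k') × Fin r).2 := ⟨_, rfl⟩
  refine Finset.prod_eq_zero (mem_univ a) ?_
  refine sum_chi_chk c hc (Sa a) ?_ ?_
  · refine card_pos.2 ⟨(finProdFinEquiv.symm q).1, mem_filter.2 ⟨mem_univ _, ?_⟩⟩
    have : idx (finProdFinEquiv.symm q).1 a = q := by
      rw [ha]
      unfold idx
      exact finProdFinEquiv.apply_symm_apply q
    rw [this]
    exact hq
  · refine le_trans ?_ hS2
    refine card_le_card_of_injOn (fun b => idx b a) (fun b hb => (mem_filter.1 hb).2) ?_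
    intro b _ b' _ h
    exact (idx_inj h).1

/-- few right-hand sides are nearly satisfiable -/
theorem card_near_chks {E : ℕ} (hE : 1 ≤ E) (c : Fin s → Fin (4 * E + 1) → Fin s)
    (G : Finset (Fin (s * (4 * E) * (4 * E)) → Bool))
    (hG : ∀ t ∈ G, ∃ z z' : Fin (4 * E) → Fin s → Bool, s * (4 * E) ≤ E * (univ.filter fun b =>
      ∀ a, chp c (z a) (z' a) b = t (idx b a)).card) :
    G.card * 2 ^ (2 * s) ≤ 2 ^ (s * (4 * E) * (4 * E)) := by
  classical
  let Z : Type := ((Fin (4 * E) → Fin s → Bool) × (Fin (4 * E) → Fin s → Bool)) ×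
    Finset (Fin (s * (4 * E)))
  let F : Z → Finset (Fin (s * (4 * E) * (4 * E)) → Bool) := fun q =>
    Fintype.piFinset fun p => if (finProdFinEquiv.symm p).1 ∈ q.2 then
      {chp c (q.1.1 (finProdFinEquiv.symm p).2) (q.1.2 (finProdFinEquiv.symm p).2)
        (finProdFinEquiv.symm p).1} else univ
  have hsub : G ⊆ ((univ : Finset Z).filter fun q => s * (4 * E) ≤ E * q.2.card).biUnion F := by
    intro t ht
    obtain ⟨z, z', hz⟩ := hG t ht
    refine mem_biUnion.2 ⟨((z, z'), univ.filter fun b => ∀ a, chp c (z a) (z' a) b = t (idx b a)),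
      mem_filter.2 ⟨mem_univ _, hz⟩, ?_⟩
    simp only [F]
    rw [Fintype.mem_piFinset]
    intro p
    by_cases hb : (finProdFinEquiv.symm p).1 ∈ univ.filter fun b =>
        ∀ a, chp c (z a) (z' a) b = t (idx b a)
    · rw [if_pos hb, mem_singleton]
      have h1 := (mem_filter.1 hb).2 (finProdFinEquiv.symm p).2
      have h2 : idx (finProdFinEquiv.symm p).1 (finProdFinEquiv.symm p).2 = p := by
        unfold idx
        exact finProdFinEquiv.apply_symm_apply p
      rw [h2] at h1
      exact h1.symm
    · rw [if_neg hb]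
      exact mem_univ _
  have hF : ∀ q ∈ (univ : Finset Z).filter (fun q => s * (4 * E) ≤ E * q.2.card),
      (F q).card * 2 ^ (4 * (s * (4 * E))) ≤ 2 ^ (s * (4 * E) * (4 * E)) := by
    intro q hq
    have hq1 := (mem_filter.1 hq).2
    have h1 : (F q).card * 2 ^ (q.2.card * (4 * E)) = 2 ^ (s * (4 * E) * (4 * E)) := by
      have h2 : (F q).card = ∏ p : Fin (s * (4 * E) * (4 * E)),
          if (finProdFinEquiv.symm p).1 ∈ q.2 then 1 else 2 := by
        simp only [F]
        rw [Fintype.card_piFinset]
        refine Finset.prod_congr rfl fun b _ => ?_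
        split_ifs
        · rw [card_singleton]
        · rw [card_univ, Fintype.card_bool]
      have h3 : 2 ^ (q.2.card * (4 * E)) = ∏ p : Fin (s * (4 * E) * (4 * E)),
          if (finProdFinEquiv.symm p).1 ∈ q.2 then 2 else 1 := by
        rw [← Finset.prod_filter, Finset.prod_const]
        congr 1
        have h4 : (univ.filter fun p : Fin (s * (4 * E) * (4 * E)) =>
            (finProdFinEquiv.symm p).1 ∈ q.2).card =
            (q.2 ×ˢ (univ : Finset (Fin (4 * E)))).card := by
          refine Finset.card_bij' (fun b _ => finProdFinEquiv.symm b)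
            (fun p _ => finProdFinEquiv p) ?_ ?_ ?_ ?_
          · intro b hb
            exact mem_product.2 ⟨(mem_filter.1 hb).2, mem_univ _⟩
          · intro p hp
            refine mem_filter.2 ⟨mem_univ _, ?_⟩
            rw [Equiv.symm_apply_apply]
            exact (mem_product.1 hp).1
          · intro b _
            exact finProdFinEquiv.apply_symm_apply b
          · intro p _
            exact finProdFinEquiv.symm_apply_apply p
        rw [h4, card_product, card_univ, Fintype.card_fin]
      rw [h2, h3, ← Finset.prod_mul_distrib]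
      have h4 : ∀ p : Fin (s * (4 * E) * (4 * E)),
          ((if (finProdFinEquiv.symm p).1 ∈ q.2 then 1 else 2) *
          (if (finProdFinEquiv.symm p).1 ∈ q.2 then 2 else 1) : ℕ) = 2 := by
        intro b
        split_ifs <;> rfl
      rw [Finset.prod_congr rfl fun b _ => h4 b, Finset.prod_const, card_univ, Fintype.card_fin]
    rw [← h1]
    refine Nat.mul_le_mul_left _ (Nat.pow_le_pow_right (by norm_num) ?_)
    calc 4 * (s * (4 * E)) ≤ 4 * (E * q.2.card) := Nat.mul_le_mul_left _ hq1
      _ = q.2.card * (4 * E) := by ring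
  have h1 := (card_le_card hsub).trans card_biUnion_le
  have h2 : (∑ q ∈ (univ : Finset Z).filter (fun q => s * (4 * E) ≤ E * q.2.card), (F q).card) *
        2 ^ (4 * (s * (4 * E))) ≤ 2 ^ (3 * (s * (4 * E))) * 2 ^ (s * (4 * E) * (4 * E)) := by
    rw [Finset.sum_mul]
    refine (Finset.sum_le_sum hF).trans ?_
    rw [Finset.sum_const, smul_eq_mul]
    refine Nat.mul_le_mul_right _ ?_
    refine (card_le_univ _).trans (le_of_eq ?_)
    simp only [Z]
    rw [Fintype.card_prod, Fintype.card_prod, Fintype.card_fun, Fintype.card_fun,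
      Fintype.card_finset, Fintype.card_bool, Fintype.card_fin, Fintype.card_fin,
      Fintype.card_fin, ← pow_mul, ← pow_add, ← pow_add]
    congr 1
    ring
  have h3 : 2 ^ (3 * (s * (4 * E))) * (G.card * 2 ^ (2 * s)) ≤
      2 ^ (3 * (s * (4 * E))) * 2 ^ (s * (4 * E) * (4 * E)) := by
    calc 2 ^ (3 * (s * (4 * E))) * (G.card * 2 ^ (2 * s)) =
          G.card * 2 ^ (3 * (s * (4 * E)) + 2 * s) := by
          rw [pow_add]
          ring
      _ ≤ G.card * 2 ^ (4 * (s * (4 * E))) := by
          refine Nat.mul_le_mul_left _ (Nat.pow_le_pow_right (by norm_num) ?_)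
          have h4 : s ≤ s * E := Nat.le_mul_of_pos_right _ hE
          have h5 : s * (4 * E) = 4 * (s * E) := by ring
          omega
      _ ≤ _ := (Nat.mul_le_mul_right _ h1).trans h2
  exact Nat.le_of_mul_le_mul_left h3 (by positivity)

/-! ### The instances -/

variable {O : Type} [Fintype O] [DecidableEq O] {N : ℕ}

/-- the slots: a check and one version of each bit of its right-hand side -/
abbrev Slot (s k' r : ℕ) (O : Type) := Fin (s * k') × (Fin r → O × Bool)

/-- addition of a vector -/
def shift (w : Fin r → Bool) (a : Fin r → Bool) (i : Fin r) : Bool := a i ^^ w i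

theorem shift_inj (w : Fin r → Bool) : Function.Injective (shift w) := by
  intro a b h
  funext i
  have h1 := congrFun h i
  unfold shift at h1
  revert h1
  cases a i <;> cases b i <;> cases w i <;> simp

/-- the constraint of a slot -/
def slotCon (c : Fin s → Fin (k' + 1) → Fin s) (hs : s ≤ N)
    (lam : (Fin r → Bool) ≃ Fin (2 ^ r)) (x : Fin (s * k' * r) × O → Bool)
    (t : Slot s k' r O) : Con N (2 ^ r) :=
  (Fin.castLE hs (c (finProdFinEquiv.symm t.1).1 0),
    Fin.castLE hs (c (finProdFinEquiv.symm t.1).1 (finProdFinEquiv.symm t.1).2.succ),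
    fun e => lam (shift (fun a => x (idx t.1 a, (t.2 a).1) ^^ (t.2 a).2) (lam.symm e)))

/-- the chosen version -/
def chosen (y : (Fin (s * k' * r) → O) × (Fin (s * k' * r) → Bool)) (b : Fin (s * k')) :
    Fin r → O × Bool := fun a => (y.1 (idx b a), y.2 (idx b a))

open Classical in
/-- the list of the constraints -/
noncomputable def theCons (c : Fin s → Fin (k' + 1) → Fin s) (hs : s ≤ N)
    (lam : (Fin r → Bool) ≃ Fin (2 ^ r)) (ι : Slot s k' r O → Fin N)
    (x : Fin (s * k' * r) × O → Bool) (t : Fin N) : Con N (2 ^ r) :=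
  if h : ∃ a, ι a = t then slotCon c hs lam x h.choose else (t, t, fun e => e)

open Classical in
/-- the weights -/
noncomputable def theWt (ι : Slot s k' r O → Fin N)
    (y : (Fin (s * k' * r) → O) × (Fin (s * k' * r) → Bool)) (t : Fin N) : Bool :=
  decide (∃ b, ι (b, chosen y b) = t)

theorem cons_apply (c : Fin s → Fin (k' + 1) → Fin s) (hs : s ≤ N)
    (lam : (Fin r → Bool) ≃ Fin (2 ^ r)) {ι : Slot s k' r O → Fin N}
    (hι : Function.Injective ι) (x : Fin (s * k' * r) × O → Bool) (a : Slot s k' r O) :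
    theCons c hs lam ι x (ι a) = slotCon c hs lam x a := by
  unfold theCons
  have h : ∃ a', ι a' = ι a := ⟨a, rfl⟩
  rw [dif_pos h]
  rw [hι h.choose_spec]

theorem wt_set {ι : Slot s k' r O → Fin N}
    (y : (Fin (s * k' * r) → O) × (Fin (s * k' * r) → Bool)) :
    (univ.filter fun t => theWt ι y t = true) =
      (univ : Finset (Fin (s * k'))).image fun b => ι (b, chosen y b) := by
  ext t
  rw [mem_filter, mem_image]
  unfold theWt
  rw [decide_eq_true_eq]
  simp

theorem chosen_inj {ι : Slot s k' r O → Fin N} (hι : Function.Injective ι)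
    (y : (Fin (s * k' * r) → O) × (Fin (s * k' * r) → Bool)) :
    Function.Injective fun b => ι (b, chosen y b) := fun b b' h => by
  have h1 := hι h
  rw [Prod.mk.injEq] at h1
  exact h1.1

theorem present_eq {ι : Slot s k' r O → Fin N} (hι : Function.Injective ι)
    (y : (Fin (s * k' * r) → O) × (Fin (s * k' * r) → Bool)) :
    present (theWt ι y) = s * k' := by
  unfold present
  rw [wt_set, card_image_of_injective _ (chosen_inj hι y), card_univ, Fintype.card_fin]

/-- the strings of a labelling -/
def strs (hs : s ≤ N) (lam : (Fin r → Bool) ≃ Fin (2 ^ r)) (l : Fin N → Fin (2 ^ r))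
    (a : Fin r) (v : Fin s) : Bool := lam.symm (l (Fin.castLE hs v)) a

theorem slot_sat (c : Fin s → Fin (k' + 1) → Fin s) (hs : s ≤ N)
    (lam : (Fin r → Bool) ≃ Fin (2 ^ r)) (x : Fin (s * k' * r) × O → Bool)
    (y : (Fin (s * k' * r) → O) × (Fin (s * k' * r) → Bool)) (b : Fin (s * k'))
    (l l' : Fin N → Fin (2 ^ r)) :
    (slotCon c hs lam x (b, chosen y b)).2.2 (l (slotCon c hs lam x (b, chosen y b)).1) =
      l' (slotCon c hs lam x (b, chosen y b)).2.1 ↔
      ∀ a, chp c (strs hs lam l a) (strs hs lam l' a) b = comb x y (idx b a) := by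
  unfold slotCon
  simp only
  rw [← Equiv.eq_symm_apply]
  constructor
  · intro h a
    have h1 := congrFun h a
    unfold chp strs
    rw [← h1]
    simp only [shift, chosen, comb]
    generalize lam.symm (l (Fin.castLE hs (c (finProdFinEquiv.symm b).1 0))) a = p
    generalize (x (idx b a, y.1 (idx b a)) ^^ y.2 (idx b a)) = q
    cases p <;> cases q <;> rfl
  · intro h
    funext a
    have h1 := h a
    unfold chp strs comb at h1
    simp only [shift, chosen]
    rw [← h1]
    generalize lam.symm (l (Fin.castLE hs (c (finProdFinEquiv.symm b).1 0))) a = p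
    generalize lam.symm (l' (Fin.castLE hs (c (finProdFinEquiv.symm b).1
      (finProdFinEquiv.symm b).2.succ))) a = q
    cases p <;> cases q <;> rfl

theorem cons_fibers (c : Fin s → Fin (k' + 1) → Fin s) (hs : s ≤ N)
    (lam : (Fin r → Bool) ≃ Fin (2 ^ r)) (ι : Slot s k' r O → Fin N)
    (x : Fin (s * k' * r) × O → Bool) {D : ℕ} (hD : 1 ≤ D) :
    Fibers D (theCons c hs lam ι x) := by
  intro t b
  refine le_trans (card_le_one.2 fun a ha a' ha' => ?_) hD
  have h1 := (mem_filter.1 ha).2.trans (mem_filter.1 ha').2.symm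
  revert h1
  unfold theCons
  split_ifs with h
  · intro h1
    simp only [slotCon] at h1
    exact lam.symm.injective (shift_inj _ (lam.injective h1))
  · intro h1
    exact h1

theorem satisfied_eq (c : Fin s → Fin (k' + 1) → Fin s) (hs : s ≤ N)
    (lam : (Fin r → Bool) ≃ Fin (2 ^ r)) {ι : Slot s k' r O → Fin N}
    (hι : Function.Injective ι) (x : Fin (s * k' * r) × O → Bool)
    (y : (Fin (s * k' * r) → O) × (Fin (s * k' * r) → Bool)) (l l' : Fin N → Fin (2 ^ r)) :
    satisfied (theCons c hs lam ι x) (theWt ι y) l l' =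
      (univ.filter fun b => ∀ a, chp c (strs hs lam l a) (strs hs lam l' a) b =
        comb x y (idx b a)).card := by
  classical
  unfold satisfied
  have h1 : (univ.filter fun t => theWt ι y t = true ∧
      (theCons c hs lam ι x t).2.2 (l (theCons c hs lam ι x t).1) =
        l' (theCons c hs lam ι x t).2.1) =
      (univ.filter fun b => ∀ a, chp c (strs hs lam l a) (strs hs lam l' a) b =
        comb x y (idx b a)).image fun b => ι (b, chosen y b) := by
    rw [← Finset.filter_filter, wt_set]
    ext t
    simp only [mem_filter, mem_image, mem_univ, true_and]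
    constructor
    · rintro ⟨⟨b, rfl⟩, h⟩
      refine ⟨b, ?_, rfl⟩
      rw [cons_apply c hs lam hι] at h
      exact (slot_sat c hs lam x y b l l').1 h
    · rintro ⟨b, h, rfl⟩
      refine ⟨⟨b, rfl⟩, ?_⟩
      rw [cons_apply c hs lam hι]
      exact (slot_sat c hs lam x y b l l').2 h
  rw [h1, card_image_of_injective _ (chosen_inj hι y)]

/-- **Games, for one system.** -/
theorem game_sys {X' Y' : Type} {D E g d : ℕ} (hD : 1 ≤ D) (hE : 1 ≤ E) (hs : 1 ≤ s)
    (hg : g * (2 * 3 ^ (4 * E + 1) * (4 * E)) ^ (g + 1) ≤ s) (hg1 : 1 ≤ g) (hd : 2 * d ≤ g + 1)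
    (hO : 1 ≤ Fintype.card O)
    (hN : s * (4 * E) * (Fintype.card O * 2) ^ (4 * E) ≤ N)
    (f : (Fin N → Con N (2 ^ (4 * E))) → X') (f' : (Fin N → Bool) → Y')
    (T : CmpTree X' Y' (LowRank X' Y'))
    (hT : Tells D (1 / E) fun C w => (T.label (f C) (f' w)).val (f C) (f' w)) :
    Fintype.card O ^ d ≤ 2 * (T.total fun l => l.r + 1) ∨
      2 ^ (2 * s) ≤ 6 * (T.total fun l => l.r + 1) ^ 2 := by
  classical
  obtain ⟨c, hc⟩ := exists_girth hs (k' := 4 * E) (g := g) (by omega) hg
  have hsN : s ≤ N := by
    refine le_trans ?_ hN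
    rw [mul_assoc]
    exact Nat.le_mul_of_pos_right _ (Nat.mul_pos (by omega) (by positivity))
  obtain ⟨ι⟩ : Nonempty (Slot s (4 * E) (4 * E) O ↪ Fin N) := by
    refine Function.Embedding.nonempty_of_card_le ?_
    rw [Fintype.card_prod, Fintype.card_fun, Fintype.card_prod,
      Fintype.card_fin, Fintype.card_fin, Fintype.card_bool, Fintype.card_fin]
    exact hN
  have hι := ι.injective
  obtain ⟨lam⟩ : Nonempty ((Fin (4 * E) → Bool) ≃ Fin (2 ^ (4 * E))) :=
    ⟨Fintype.equivFinOfCardEq (by rw [Fintype.card_fun, Fintype.card_fin, Fintype.card_bool])⟩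
  have hdm : 2 * d ≤ s * (4 * E) * (4 * E) := by
    have h1 : g ≤ s := le_trans (Nat.le_mul_of_pos_right _ (by positivity)) hg
    have h2 : s * 4 ≤ s * (4 * E) := Nat.mul_le_mul_left _ (by omega)
    have h3 : s * (4 * E) ≤ s * (4 * E) * (4 * E) := Nat.le_mul_of_pos_right _ (by omega)
    omega
  let G : Finset (Fin (s * (4 * E) * (4 * E)) → Bool) := univ.filter fun t =>
    ∃ z z' : Fin (4 * E) → Fin s → Bool, s * (4 * E) ≤ E * (univ.filter fun b =>
      ∀ a, chp c (z a) (z' a) b = t (idx b a)).card
  have hGc := card_near_chks hE c G fun t ht => (mem_filter.1 ht).2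
  have key := abs_tree (m := s * (4 * E) * (4 * E)) (O := O)
    (Ω := Fin (4 * E) → Fin s → Bool) Fintype.card_pos (chks c)
    hO hdm (fun S hS1 hS2 => sum_chi_chks c hc S hS1 (by omega)) (fun _ => G)
    (fun _ z => mem_filter.2 ⟨mem_univ _, z, z, by
      have h1 : (univ.filter fun b => ∀ a, chp c (z a) (z a) b = chks c z (idx b a)) =
          univ := by
        refine filter_true_of_mem fun b _ a => ?_
        rw [chks_idx, chp_self]
      rw [h1, card_univ, Fintype.card_fin]
      exact Nat.le_mul_of_pos_left _ hE⟩) (W := 2 ^ (2 * s)) (by positivity)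
    (fun _ => by exact_mod_cast hGc)
    (fun x => f (theCons c hsN lam ι x)) (fun y => f' (theWt ι y)) T
    (fun x y z hxy => by
      obtain ⟨l, hl⟩ : ∃ l : Fin N → Fin (2 ^ (4 * E)), l = fun v => if h : v.1 < s then
        lam fun a => z a ⟨v.1, h⟩ else lam fun _ => false := ⟨_, rfl⟩
      refine (hT _ _ (cons_fibers c hsN lam ι x hD)).1 ⟨l, l, ?_⟩
      rw [satisfied_eq c hsN lam hι, present_eq hι]
      have h1 : ∀ a, strs hsN lam l a = z a := by
        intro a
        funext v
        unfold strs
        rw [hl]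
        have h2 : (Fin.castLE hsN v).1 < s := v.2
        simp only [dif_pos h2, Equiv.symm_apply_apply]
        rfl
      have h2 : (univ.filter fun b => ∀ a, chp c (strs hsN lam l a) (strs hsN lam l a) b =
            comb x y (idx b a)) = univ := by
        refine filter_true_of_mem fun b _ a => ?_
        rw [h1, hxy, chks_idx, chp_self]
      rw [h2, card_univ, Fintype.card_fin])
    (fun x y hxy => by
      refine (hT _ _ (cons_fibers c hsN lam ι x hD)).2 ⟨?_, fun l l' => ?_⟩
      · rw [present_eq hι]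
        exact Nat.mul_pos hs (by omega)
      · rw [satisfied_eq c hsN lam hι, present_eq hι]
        have h1 : E * (univ.filter fun b => ∀ a, chp c (strs hsN lam l a) (strs hsN lam l' a) b =
            comb x y (idx b a)).card ≤ s * (4 * E) := by
          by_contra hcon
          exact hxy (mem_filter.2 ⟨mem_univ _, strs hsN lam l, strs hsN lam l',
            (not_le.1 hcon).le⟩)
        have hE0 : (0 : ℝ) < E := by exact_mod_cast hE
        rw [div_mul_eq_mul_div, one_mul, le_div_iff₀ hE0, mul_comm]
        exact_mod_cast h1)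
  rcases key with h1 | h1
  · left; exact_mod_cast h1
  · right; exact_mod_cast h1

end Pool.Agent.Y601.LD.Game
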