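import Pool.Agent.Y601.LD.VCTwoMain

set_option autoImplicit false
set_option linter.unusedSectionVars false

/-!
The numbers for bounds of the form `n ^ (γ log n)`.
-/

namespace Pool.Agent.Y601.LD

open Finset

theorem quasi (K b : ℕ) (hK1 : 5 ≤ K) : ∃ γ : ℝ, 0 < γ ∧ ∃ n₀ : ℕ, ∀ n : ℕ, n₀ ≤ n →
    ∃ σ g d : ℕ, g * b ^ (g + 1) ≤ 2 ^ σ ∧ 1 ≤ g ∧ 2 * d ≤ g + 1 ∧ 2 ^ ((σ + 1) * K) ≤ n ∧
      ∀ t : ℕ, ((2 ^ σ) ^ d ≤ 2 * t ∨ 2 ^ (2 * 2 ^ σ) ≤ 6 * t ^ 2) →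
        (n : ℝ) ^ (γ * Real.log n) ≤ t := by
  refine ⟨1 / (128 * K ^ 2 * (b + 1)), by positivity, 2 ^ (16 * K * (b + 1)), fun n hn => ?_⟩
  obtain ⟨L, hL⟩ : ∃ L, L = Nat.log 2 n := ⟨_, rfl⟩
  have hn0 : n ≠ 0 := by
    have : 1 ≤ 2 ^ (16 * K * (b + 1)) := Nat.one_le_two_pow
    omega
  have hL1 : 16 * K * (b + 1) ≤ L := by
    rw [hL]
    exact Nat.le_log_of_pow_le (by norm_num) hn
  have hL2 : 2 ^ L ≤ n := by rw [hL]; exact Nat.pow_log_le_self 2 hn0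
  have hL3 : n < 2 ^ (L + 1) := by rw [hL]; exact Nat.lt_pow_succ_log_self (by norm_num) n
  obtain ⟨σ, hσ⟩ : ∃ σ, σ = L / K - 1 := ⟨_, rfl⟩
  have hLK : 16 * (b + 1) ≤ L / K := by
    rw [Nat.le_div_iff_mul_le (by omega)]
    calc 16 * (b + 1) * K = 16 * K * (b + 1) := by ring
      _ ≤ L := hL1
  have hσ1 : (σ + 1) * K ≤ L := by
    have h1 : σ + 1 = L / K := by omega
    rw [h1]
    exact Nat.div_mul_le_self _ _
  have hσ2 : L < (σ + 2) * K := by
    have h1 : σ + 2 = L / K + 1 := by omega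
    rw [h1, mul_comm]
    exact Nat.lt_mul_div_succ L (by omega)
  have hσ3 : 15 * (b + 1) ≤ σ := by omega
  obtain ⟨g, hg⟩ : ∃ g, g = σ / (b + 1) - 1 := ⟨_, rfl⟩
  have hσb : 15 ≤ σ / (b + 1) := by
    rw [Nat.le_div_iff_mul_le (by omega)]
    exact hσ3
  have hg1 : (g + 1) * (b + 1) ≤ σ := by
    have h1 : g + 1 = σ / (b + 1) := by omega
    rw [h1]
    exact Nat.div_mul_le_self _ _
  have hg2 : σ < (g + 2) * (b + 1) := by
    have h1 : g + 2 = σ / (b + 1) + 1 := by omega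
    rw [h1, mul_comm]
    exact Nat.lt_mul_div_succ σ (by omega)
  obtain ⟨d, hd⟩ : ∃ d, d = (g + 1) / 2 := ⟨_, rfl⟩
  refine ⟨σ, g, d, ?_, by omega, by omega, ?_, fun t key => ?_⟩
  · have h1 : b ≤ 2 ^ b := Nat.lt_two_pow_self.le
    calc g * b ^ (g + 1) ≤ 2 ^ g * (2 ^ b) ^ (g + 1) :=
          Nat.mul_le_mul Nat.lt_two_pow_self.le (Nat.pow_le_pow_left h1 _)
      _ ≤ 2 ^ (g + 1) * (2 ^ b) ^ (g + 1) :=
          Nat.mul_le_mul_right _ (Nat.pow_le_pow_right (by norm_num) (Nat.le_succ _))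
      _ = 2 ^ ((g + 1) * (b + 1)) := by
          rw [← pow_mul, ← pow_add]
          congr 1
          ring
      _ ≤ 2 ^ σ := Nat.pow_le_pow_right (by norm_num) hg1
  · exact (Nat.pow_le_pow_right (by norm_num) hσ1).trans hL2
  -- the natural bound
  have hdσ : d ≤ σ / 2 := by
    have h1 : g + 1 ≤ σ := le_trans (Nat.le_mul_of_pos_right _ (by omega)) hg1
    omega
  have hσ15 : 15 ≤ σ := le_trans (by omega) hσ3
  have hd1 : 1 ≤ d := by omega
  have hmain : 2 ^ (σ * d) ≤ 2 * t := by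
    rcases key with h1 | h1
    · rw [← pow_mul] at h1
      exact h1
    · have h2 := sq_lt_pow (x := σ) (by omega)
      have h3 : 2 * (σ * d) + 1 ≤ 2 * 2 ^ σ := by
        have h4 : σ * d ≤ σ * (σ / 2) := Nat.mul_le_mul_left _ hdσ
        have h5 : σ * (σ / 2) ≤ σ ^ 2 := by
          rw [sq]
          exact Nat.mul_le_mul_left _ (Nat.div_le_self _ _)
        omega
      have h4 : 2 ^ (2 * (σ * d) + 1) ≤ 6 * t ^ 2 :=
        (Nat.pow_le_pow_right (by norm_num) h3).trans h1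
      have h5 : (2 ^ (σ * d)) ^ 2 ≤ (2 * t) ^ 2 := by
        rw [pow_succ, mul_comm 2 (σ * d), pow_mul] at h4
        rw [mul_pow]
        omega
      exact (Nat.pow_le_pow_iff_left (by norm_num)).1 h5
  -- the real bound
  have hlog2 : 0 < Real.log 2 := Real.log_pos (by norm_num)
  have hlog2' : Real.log 2 ≤ 1 := by
    have := Real.log_two_lt_d9
    linarith
  have hn1 : (1 : ℝ) ≤ n := by exact_mod_cast Nat.one_le_iff_ne_zero.2 hn0
  have hlogn : Real.log n ≤ 2 * L * Real.log 2 := by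
    have h1 : (n : ℝ) ≤ 2 ^ (L + 1) := by exact_mod_cast hL3.le
    have h2 := Real.log_le_log (by linarith) h1
    rw [Real.log_pow] at h2
    refine h2.trans (mul_le_mul_of_nonneg_right ?_ hlog2.le)
    have h3 : (1 : ℝ) ≤ L := by
      have : 1 ≤ L := le_trans (by nlinarith) hL1
      exact_mod_cast this
    push_cast
    linarith
  have hlogn0 : 0 ≤ Real.log n := Real.log_nonneg hn1
  have ht2 : (2 : ℝ) ^ (((σ * d : ℕ) : ℝ) - 1) ≤ t := by
    rw [Real.rpow_sub two_pos, Real.rpow_natCast, Real.rpow_one, div_le_iff₀ two_pos]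
    have h1 : (2 : ℝ) ^ (σ * d) ≤ 2 * t := by exact_mod_cast hmain
    linarith
  refine le_trans ?_ ht2
  rw [Real.rpow_def_of_pos (by linarith), Real.rpow_def_of_pos two_pos]
  refine Real.exp_le_exp.2 ?_
  have hb1 : (0 : ℝ) < (b : ℝ) + 1 := by positivity
  have hK0 : (0 : ℝ) < K := by exact_mod_cast (by omega : 0 < K)
  have hLσ : (L : ℝ) ≤ 2 * K * σ := by
    have h1 : L ≤ 2 * K * σ := by
      have h2 : (σ + 2) * K ≤ 2 * K * σ := by nlinarith
      omega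
    exact_mod_cast h1
  have hσd : (σ : ℝ) ≤ 4 * (b + 1) * d := by
    have h1 : σ ≤ 4 * (b + 1) * d := by
      have h2 : g + 2 ≤ 4 * d := by omega
      have h3 : (g + 2) * (b + 1) ≤ 4 * d * (b + 1) := Nat.mul_le_mul_right _ h2
      have h4 : 4 * d * (b + 1) = 4 * (b + 1) * d := by ring
      omega
    exact_mod_cast h1
  have hσ15' : (15 : ℝ) ≤ σ := by exact_mod_cast hσ15
  have hd1' : (1 : ℝ) ≤ d := by exact_mod_cast hd1
  -- (log n) ^ 2 in terms of σ d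
  have h1 : Real.log n ^ 2 ≤ 4 * (L : ℝ) ^ 2 * Real.log 2 := by
    calc Real.log n ^ 2 ≤ (2 * L * Real.log 2) ^ 2 := pow_le_pow_left₀ hlogn0 hlogn 2
      _ = 4 * (L : ℝ) ^ 2 * (Real.log 2 * Real.log 2) := by ring
      _ ≤ 4 * (L : ℝ) ^ 2 * (Real.log 2 * 1) := by
          refine mul_le_mul_of_nonneg_left ?_ (by positivity)
          exact mul_le_mul_of_nonneg_left hlog2' hlog2.le
      _ = _ := by ring
  have h2 : (L : ℝ) ^ 2 ≤ 4 * K ^ 2 * (4 * (b + 1)) * (σ * d) := by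
    calc (L : ℝ) ^ 2 ≤ (2 * K * σ) ^ 2 := pow_le_pow_left₀ (Nat.cast_nonneg _) hLσ 2
      _ = 4 * K ^ 2 * (σ * σ) := by ring
      _ ≤ 4 * K ^ 2 * (4 * (b + 1) * d * σ) := by
          refine mul_le_mul_of_nonneg_left ?_ (by positivity)
          exact mul_le_mul_of_nonneg_right hσd (by positivity)
      _ = _ := by ring
  have h3 : 1 / (128 * (K : ℝ) ^ 2 * (b + 1)) * Real.log n ^ 2 ≤ (σ * d) / 2 * Real.log 2 := by
    rw [div_mul_eq_mul_div, one_mul, div_le_iff₀ (by positivity)]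
    calc Real.log n ^ 2 ≤ 4 * (L : ℝ) ^ 2 * Real.log 2 := h1
      _ ≤ 4 * (4 * K ^ 2 * (4 * (b + 1)) * (σ * d)) * Real.log 2 := by
          refine mul_le_mul_of_nonneg_right ?_ hlog2.le
          exact mul_le_mul_of_nonneg_left h2 (by norm_num)
      _ = _ := by ring
  calc Real.log n * (1 / (128 * (K : ℝ) ^ 2 * (b + 1)) * Real.log n) =
        1 / (128 * (K : ℝ) ^ 2 * (b + 1)) * Real.log n ^ 2 := by ring
    _ ≤ (σ * d) / 2 * Real.log 2 := h3
    _ ≤ Real.log 2 * (((σ * d : ℕ) : ℝ) - 1) := by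
        push_cast
        have h4 : (2 : ℝ) ≤ σ * d := by nlinarith
        nlinarith

end Pool.Agent.Y601.LD
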