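import Pool.Agent.Y601.LD.Game
import Pool.Agent.Y601.LD.Quasi
import Pool.Agent.Y601.LD.BitCirc

set_option autoImplicit false
set_option linter.unusedSectionVars false

/-!
Games: the final bounds.
-/

namespace Pool.Agent.Y601.LD.Game

open Finset Pool.Agent.Y601.LD

/-- the trees which read the constraints and the weights -/
abbrev GameTree (N q : ℕ) (L : Type) := CmpTree (Fin N → Con N q) (Fin N → Bool) L

theorem Tells.mono {n q N D : ℕ} {δ δ' : ℝ} {φ : (Fin N → Con n q) → (Fin N → Bool) → ℝ}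
    (h : Tells D δ φ) (hδ : δ' ≤ δ) : Tells D δ' φ := fun C w hC =>
  ⟨(h C w hC).1, fun h1 => (h C w hC).2 ⟨h1.1, fun l l' => (h1.2 l l').trans
    (mul_le_mul_of_nonneg_right hδ (Nat.cast_nonneg _))⟩⟩

theorem game_main {D E : ℕ} (hD : 1 ≤ D) (hE : 1 ≤ E) : ∃ γ : ℝ, 0 < γ ∧ ∃ n₀ : ℕ,
    ∀ N : ℕ, n₀ ≤ N → ∀ (X' Y' : Type) (f : (Fin N → Con N (2 ^ (4 * E))) → X')
      (f' : (Fin N → Bool) → Y') (T : CmpTree X' Y' (LowRank X' Y')),
      Tells D (1 / E) (fun C w => (T.label (f C) (f' w)).val (f C) (f' w)) →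
      (N : ℝ) ^ (γ * Real.log N) ≤ (T.total fun l => l.r + 1 : ℕ) := by
  obtain ⟨γ, hγ, n₀, h⟩ := quasi (8 * E + 1) (2 * 3 ^ (4 * E + 1) * (4 * E)) (by omega)
  refine ⟨γ, hγ, n₀, fun N hN X' Y' f f' T hT => ?_⟩
  obtain ⟨σ, g, d, hg, hg1, hd, hσ, hmain⟩ := h N hN
  refine hmain _ ?_
  have key := game_sys (s := 2 ^ σ) (D := D) (E := E) (g := g) (d := d) (O := Fin (2 ^ σ)) hD hE
    Nat.one_le_two_pow hg hg1 hd (by rw [Fintype.card_fin]; exact Nat.one_le_two_pow) (by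
      rw [Fintype.card_fin]
      refine le_trans ?_ hσ
      have h1 : 4 * E ≤ 2 ^ (4 * E) := Nat.lt_two_pow_self.le
      calc 2 ^ σ * (4 * E) * (2 ^ σ * 2) ^ (4 * E)
          ≤ 2 ^ σ * 2 ^ (4 * E) * (2 ^ σ * 2) ^ (4 * E) :=
            Nat.mul_le_mul_right _ (Nat.mul_le_mul_left _ h1)
        _ = 2 ^ (σ + 4 * E + (σ + 1) * (4 * E)) := by
            rw [← pow_succ, ← pow_mul, ← pow_add, ← pow_add]
        _ ≤ 2 ^ ((σ + 1) * (8 * E + 1)) := by
            refine Nat.pow_le_pow_right (by norm_num) ?_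
            have h2 : (σ + 1) * (8 * E + 1) = σ + 1 + (4 * E) * σ + 4 * E + (σ + 1) * (4 * E) := by
              ring
            omega) f f' T hT
  rw [Fintype.card_fin] at key
  exact key

theorem game_fin {D : ℕ} (hD : 1 ≤ D) {δ : ℝ} (hδ : 0 < δ) : ∃ q : ℕ, 0 < q ∧ ∃ γ : ℝ, 0 < γ ∧
    ∃ n₀ : ℕ, ∀ N : ℕ, n₀ ≤ N →
      (∀ T : GameTree N q (LowRank (Fin N → Con N q) (Fin N → Bool)),
        Tells D δ (fun C w => (T.label C w).val C w) →
        (N : ℝ) ^ (γ * Real.log N) ≤ (T.total fun l => l.r + 1 : ℕ)) ∧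
      ∀ (R : ℕ) (T : CmpTree (Fin N × Fin N × Fin N × Fin q × Fin q → Bool) (Fin N → Bool)
        (BitCircuit (Fin N × Fin N × Fin N × Fin q × Fin q) (Fin N) R)),
        Tells (n := N) D δ (fun C w => (T.label (conBits C) w).val (conBits C) w) →
        (N : ℝ) ^ (γ * Real.log N) ≤ ((2 * R + 1) * T.total fun c => c.S + 1 : ℕ) := by
  obtain ⟨E, hE⟩ := exists_nat_ge (1 / δ)
  have hE0 : (0 : ℝ) < E := lt_of_lt_of_le (by positivity) hE
  have hE1 : 1 ≤ E := by exact_mod_cast hE0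
  have hEδ : 1 / (E : ℝ) ≤ δ := by
    rw [div_le_iff₀ hE0]
    rw [div_le_iff₀ hδ] at hE
    linarith
  obtain ⟨γ, hγ, n₀, h⟩ := game_main (D := D) hD hE1
  refine ⟨2 ^ (4 * E), by positivity, γ, hγ, n₀, fun N hN => ⟨fun T hT => ?_, fun R T hT => ?_⟩⟩
  · exact h N hN _ _ (fun C => C) (fun w => w) T (hT.mono hEδ)
  · have h3 := h N hN _ _ (fun C => conBits C) (fun w => w) (T.map bitLow) (by
      have h2 : (fun (C : Fin N → Con N (2 ^ (4 * E))) (w : Fin N → Bool) =>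
          ((T.map bitLow).label (conBits C) w).val (conBits C) w) =
            fun C w => (T.label (conBits C) w).val (conBits C) w := by
        funext C w
        rw [map_label, bitLow_val]
      rw [h2]
      exact hT.mono hEδ)
    exact h3.trans (by exact_mod_cast bit_total T)

end Pool.Agent.Y601.LD.Game
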