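import Pool.Agent.Y601.LD.Sys

set_option autoImplicit false
set_option linter.unusedSectionVars false

/-!
Sparse systems in which small sets of constraints are forests.
-/

namespace Pool.Agent.Y601.LD

open Finset Pool.Agent.H532R2.MC

variable {n m K k' : ℕ}

/-- the number of the systems in which `J` has few variables -/
theorem card_few (J : Finset (Fin m)) {u : ℕ} (hJ : u ≤ n) :
    (((univ : Finset (Fin m → Fin K → Fin n)).filter fun c => (imgk c J).card ≤ u).card : ℝ) ≤
      (n.choose u : ℝ) * (((u : ℝ) ^ K) ^ J.card * ((n : ℝ) ^ K) ^ (m - J.card)) := by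
  classical
  have hsub : ((univ : Finset (Fin m → Fin K → Fin n)).filter fun c =>
      (imgk c J).card ≤ u) ⊆ (powersetCard u (univ : Finset (Fin n))).biUnion fun U =>
      Fintype.piFinset fun i => if i ∈ J then (Fintype.piFinset fun _ => U) else univ := by
    intro c hc
    obtain ⟨U, hU1, hU2⟩ := Finset.exists_superset_card_eq (mem_filter.1 hc).2
      (by rw [Fintype.card_fin]; exact hJ)
    refine mem_biUnion.2 ⟨U, mem_powersetCard.2 ⟨subset_univ _, hU2⟩, ?_⟩
    rw [Fintype.mem_piFinset]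
    intro i
    by_cases hi : i ∈ J
    · rw [if_pos hi, Fintype.mem_piFinset]
      intro s
      exact hU1 (mem_image.2 ⟨(i, s), mem_product.2 ⟨hi, mem_univ _⟩, rfl⟩)
    · rw [if_neg hi]
      exact mem_univ _
  have hcard : ∀ U ∈ powersetCard u (univ : Finset (Fin n)),
      (Fintype.piFinset fun i : Fin m => if i ∈ J then
        (Fintype.piFinset fun _ : Fin K => U) else univ).card =
        (u ^ K) ^ J.card * (n ^ K) ^ (m - J.card) := by
    intro U hU
    have hU2 := (mem_powersetCard.1 hU).2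
    rw [Fintype.card_piFinset]
    have h1 : ∀ i : Fin m, (if i ∈ J then (Fintype.piFinset fun _ : Fin K => U)
        else univ).card = if i ∈ J then u ^ K else n ^ K := by
      intro i
      split_ifs
      · rw [Fintype.card_piFinset_const, hU2]
      · rw [card_univ, Fintype.card_fun, Fintype.card_fin, Fintype.card_fin]
    rw [Finset.prod_congr rfl fun i _ => h1 i, Finset.prod_ite, Finset.prod_const,
      Finset.prod_const]
    congr 2
    · congr 1
      ext i
      simp
    · rw [Finset.filter_not, card_sdiff_of_subset (filter_subset _ _), card_univ,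
        Fintype.card_fin]
      congr 2
      ext i
      simp
  have h1 := (card_le_card hsub).trans (card_biUnion_le.trans (le_of_eq
    (Finset.sum_congr rfl hcard)))
  rw [Finset.sum_const, card_powersetCard, card_univ, Fintype.card_fin, smul_eq_mul] at h1
  exact_mod_cast h1

/-- the number of the systems in which `J` is not a forest -/
theorem card_cyc (hn : 1 ≤ n) (J : Finset (Fin m)) (hJ : k' * J.card ≤ n) :
    (((univ : Finset (Fin m → Fin (k' + 1) → Fin n)).filter fun c =>
      (imgk c J).card ≤ k' * J.card).card : ℝ) ≤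
      ((n : ℝ) ^ (k' + 1)) ^ m * (3 ^ k' * (k' * J.card) / n) ^ J.card := by
  have hn0 : (0 : ℝ) < n := by exact_mod_cast hn
  refine (card_few J hJ).trans ?_
  obtain ⟨j, hj⟩ : ∃ j, j = J.card := ⟨_, rfl⟩
  have hjm : j ≤ m := by
    rw [hj]
    have := card_le_univ J
    rwa [Fintype.card_fin] at this
  rw [← hj]
  obtain ⟨u, hu⟩ : ∃ u, u = k' * j := ⟨_, rfl⟩
  rw [← hu]
  have h3 : (n.choose u : ℝ) ≤ (n : ℝ) ^ u / u.factorial := Nat.choose_le_pow_div u n
  have h4 : ((u : ℝ) ^ (k' + 1)) ^ j = (u : ℝ) ^ u * (u : ℝ) ^ j := by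
    rw [← pow_mul, ← pow_add]
    congr 1
    rw [hu]
    ring
  calc (n.choose u : ℝ) * (((u : ℝ) ^ (k' + 1)) ^ j * ((n : ℝ) ^ (k' + 1)) ^ (m - j))
      ≤ ((n : ℝ) ^ u / u.factorial) * (((u : ℝ) ^ (k' + 1)) ^ j *
          ((n : ℝ) ^ (k' + 1)) ^ (m - j)) :=
        mul_le_mul_of_nonneg_right h3 (by positivity)
    _ = (n : ℝ) ^ u * ((u : ℝ) ^ u / u.factorial) * ((u : ℝ) ^ j *
          ((n : ℝ) ^ (k' + 1)) ^ (m - j)) := by
        rw [h4]
        ring
    _ ≤ (n : ℝ) ^ u * 3 ^ u * ((u : ℝ) ^ j * ((n : ℝ) ^ (k' + 1)) ^ (m - j)) := by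
        refine mul_le_mul_of_nonneg_right ?_ (by positivity)
        exact mul_le_mul_of_nonneg_left (pow_self_le u) (by positivity)
    _ = ((n : ℝ) ^ (k' + 1)) ^ m * (3 ^ k' * (k' * j) / n) ^ j := by
        have h5 : ((n : ℝ) ^ (k' + 1)) ^ m = ((n : ℝ) ^ (k' + 1)) ^ (m - j) *
            ((n : ℝ) ^ u * (n : ℝ) ^ j) := by
          have h6 : (n : ℝ) ^ u * (n : ℝ) ^ j = ((n : ℝ) ^ (k' + 1)) ^ j := by
            rw [← pow_mul, ← pow_add]
            congr 1
            rw [hu]
            ring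
          rw [h6, ← pow_add, Nat.sub_add_cancel hjm]
        have h6 : (3 ^ k' * (k' * (j : ℝ)) / n) ^ j = 3 ^ u * (u : ℝ) ^ j / (n : ℝ) ^ j := by
          rw [div_pow, mul_pow, ← pow_mul, hu]
          push_cast
          ring
        rw [h5, h6]
        field_simp

/-- **Systems in which small sets of constraints are forests.** -/
theorem exists_girth {s g : ℕ} (hs : 1 ≤ s) (hk : 1 ≤ k')
    (hg : g * (2 * 3 ^ (k' + 1) * k') ^ (g + 1) ≤ s) :
    ∃ c : Fin s → Fin (k' + 1) → Fin s, ∀ J : Finset (Fin s), 1 ≤ J.card → J.card ≤ g →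
      k' * J.card < (imgk c J).card := by
  classical
  obtain ⟨B, hB⟩ : ∃ B, B = 2 * 3 ^ (k' + 1) * k' := ⟨_, rfl⟩
  rw [← hB] at hg
  have hB2 : 2 ≤ B := by
    rw [hB, mul_assoc]
    exact Nat.le_mul_of_pos_right _ (Nat.mul_pos (by positivity) hk)
  have hkB : k' ≤ B := by
    rw [hB]
    exact Nat.le_mul_of_pos_left _ (by positivity)
  -- the number of bad sets
  let bad : (Fin (2 * s) → Fin (k' + 1) → Fin s) → Finset (Finset (Fin (2 * s))) := fun c =>
    univ.filter fun J => 1 ≤ J.card ∧ J.card ≤ g ∧ (imgk c J).card ≤ k' * J.card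
  obtain ⟨E, hE⟩ : ∃ E : ℝ, E = ∑ J : Finset (Fin (2 * s)),
    if 1 ≤ J.card ∧ J.card ≤ g then (3 ^ k' * (k' * (J.card : ℝ)) / s) ^ J.card else 0 := ⟨_, rfl⟩
  have hEB : E ≤ (B : ℝ) ^ (g + 1) := by
    have hs0 : (0 : ℝ) < s := by exact_mod_cast hs
    have h1 : E = ∑ j ∈ range (2 * s + 1), ((2 * s).choose j : ℝ) *
        (if 1 ≤ j ∧ j ≤ g then (3 ^ k' * (k' * (j : ℝ)) / s) ^ j else 0) := by
      have h2 := Finset.sum_powerset_apply_card (fun j : ℕ =>
        if 1 ≤ j ∧ j ≤ g then (3 ^ k' * (k' * (j : ℝ)) / s) ^ j else 0)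
        (x := (univ : Finset (Fin (2 * s))))
      rw [Finset.powerset_univ, card_univ, Fintype.card_fin] at h2
      rw [hE, h2]
      exact Finset.sum_congr rfl fun j _ => by rw [nsmul_eq_mul]
    have h3 : ∀ j ∈ range (2 * s + 1), ((2 * s).choose j : ℝ) *
        (if 1 ≤ j ∧ j ≤ g then (3 ^ k' * (k' * (j : ℝ)) / s) ^ j else 0) ≤
        if j ≤ g then (B : ℝ) ^ j else 0 := by
      intro j _
      by_cases hj : 1 ≤ j ∧ j ≤ g
      · rw [if_pos hj, if_pos hj.2]
        have h4 : ((2 * s).choose j : ℝ) ≤ ((2 * s : ℕ) : ℝ) ^ j / j.factorial :=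
          Nat.choose_le_pow_div j (2 * s)
        calc ((2 * s).choose j : ℝ) * (3 ^ k' * (k' * (j : ℝ)) / s) ^ j
            ≤ (((2 * s : ℕ) : ℝ) ^ j / j.factorial) * (3 ^ k' * (k' * (j : ℝ)) / s) ^ j :=
              mul_le_mul_of_nonneg_right h4 (by positivity)
          _ = (2 * 3 ^ k' * k') ^ j * ((j : ℝ) ^ j / j.factorial) := by
              push_cast
              rw [div_pow, mul_pow, mul_pow, mul_pow, mul_pow, mul_pow]
              field_simp
          _ ≤ (2 * 3 ^ k' * k') ^ j * 3 ^ j :=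
              mul_le_mul_of_nonneg_left (pow_self_le j) (by positivity)
          _ = (B : ℝ) ^ j := by
              rw [← mul_pow, hB]
              push_cast
              ring
      · rw [if_neg hj, mul_zero]
        split_ifs <;> positivity
    rw [h1]
    refine (Finset.sum_le_sum h3).trans ?_
    have h5 : ∑ j ∈ range (2 * s + 1), (if j ≤ g then (B : ℝ) ^ j else 0) ≤
        ∑ j ∈ range (g + 1), (B : ℝ) ^ j := by
      rw [← Finset.sum_filter]
      refine Finset.sum_le_sum_of_subset_of_nonneg ?_ fun _ _ _ => by positivity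
      intro j hj
      rw [mem_range]
      have := (mem_filter.1 hj).2
      omega
    refine h5.trans ?_
    have h6 : ∀ t : ℕ, ∑ j ∈ range t, (B : ℝ) ^ j ≤ (B : ℝ) ^ t := by
      intro t
      induction t with
      | zero => simp
      | succ t ih =>
        rw [Finset.sum_range_succ, pow_succ]
        have h7 : (2 : ℝ) ≤ B := by exact_mod_cast hB2
        have h8 : (0 : ℝ) ≤ (B : ℝ) ^ t := by positivity
        nlinarith
    exact h6 _
  obtain ⟨c, hc⟩ : ∃ c, ((bad c).card : ℝ) ≤ E := by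
    have h1 : ∑ c, ((bad c).card : ℝ) ≤ ∑ _c : Fin (2 * s) → Fin (k' + 1) → Fin s, E := by
      have h2 : ∑ c, ((bad c).card : ℝ) = ∑ J : Finset (Fin (2 * s)),
          if 1 ≤ J.card ∧ J.card ≤ g then
            (((univ : Finset (Fin (2 * s) → Fin (k' + 1) → Fin s)).filter fun c =>
            (imgk c J).card ≤ k' * J.card).card : ℝ) else 0 := by
        simp only [bad, Finset.card_filter]
        push_cast
        rw [Finset.sum_comm]
        refine Finset.sum_congr rfl fun J _ => ?_
        split_ifs with h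
        · refine Finset.sum_congr rfl fun c _ => ?_
          simp only [h.1, h.2, true_and]
        · refine Finset.sum_eq_zero fun c _ => ?_
          rw [if_neg]
          exact fun h' => h ⟨h'.1, h'.2.1⟩
      rw [h2, Finset.sum_const, card_univ, Fintype.card_fun, Fintype.card_fun, Fintype.card_fin,
        Fintype.card_fin, Fintype.card_fin, nsmul_eq_mul, hE, Finset.mul_sum]
      refine Finset.sum_le_sum fun J _ => ?_
      split_ifs with h
      · have h3 : k' * J.card ≤ s := by
          refine le_trans ?_ hg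
          calc k' * J.card ≤ B * g := Nat.mul_le_mul hkB h.2
            _ = g * B := mul_comm _ _
            _ ≤ g * B ^ (g + 1) := Nat.mul_le_mul_left _ (Nat.le_self_pow (by omega) _)
        refine (card_cyc hs J h3).trans (le_of_eq ?_)
        push_cast
        ring
      · rw [mul_zero]
    obtain ⟨c, -, hc⟩ := Finset.exists_le_of_sum_le ⟨fun _ _ => ⟨0, hs⟩, mem_univ _⟩ h1
    exact ⟨c, hc⟩
  -- the good constraints
  have hU : ((bad c).biUnion id).card ≤ s := by
    refine card_biUnion_le.trans ?_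
    have h1 : ∑ J ∈ bad c, (id J).card ≤ ∑ _J ∈ bad c, g :=
      Finset.sum_le_sum fun J hJ => (mem_filter.1 hJ).2.2.1
    refine h1.trans ?_
    rw [Finset.sum_const, smul_eq_mul, mul_comm]
    have h2 : (bad c).card ≤ B ^ (g + 1) := by exact_mod_cast hc.trans hEB
    exact (Nat.mul_le_mul_left _ h2).trans hg
  have hV : s ≤ ((univ : Finset (Fin (2 * s))) \ (bad c).biUnion id).card := by
    rw [card_sdiff_of_subset (subset_univ _), card_univ, Fintype.card_fin]
    omega
  obtain ⟨V, hV1, hV2⟩ := Finset.exists_subset_card_eq hV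
  let φ := (V.equivFinOfCardEq hV2).symm
  refine ⟨fun i => c (φ i), fun J hJ1 hJ2 => ?_⟩
  by_contra hcon
  have hφ : Function.Injective fun i : Fin s => ((φ i : V) : Fin (2 * s)) := fun i j h =>
    φ.injective (Subtype.ext h)
  have h1 : imgk (fun i => c (φ i)) J = imgk c (J.image fun i => ((φ i : V) : Fin (2 * s))) := by
    unfold imgk
    ext v
    simp only [mem_image, mem_product, mem_univ, and_true, Prod.exists]
    constructor
    · rintro ⟨i, j, hi, rfl⟩
      exact ⟨_, j, ⟨i, hi, rfl⟩, rfl⟩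
    · rintro ⟨_, j, ⟨i, hi, rfl⟩, rfl⟩
      exact ⟨i, j, hi, rfl⟩
  have h2 : (J.image fun i => ((φ i : V) : Fin (2 * s))).card = J.card :=
    card_image_of_injective _ hφ
  have h3 : (J.image fun i => ((φ i : V) : Fin (2 * s))) ∈ bad c := by
    refine mem_filter.2 ⟨mem_univ _, ?_, ?_, ?_⟩
    · rw [h2]; exact hJ1
    · rw [h2]; exact hJ2
    · rw [h2, ← h1]; omega
  obtain ⟨i, hi⟩ := card_pos.1 hJ1
  have h4 := hV1 (φ i).2
  rw [mem_sdiff, mem_biUnion] at h4
  exact h4.2 ⟨_, h3, mem_image_of_mem _ hi⟩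

/-- a variable that is used only once -/
theorem exists_used_once {s : ℕ} (c : Fin s → Fin (k' + 1) → Fin n) (J : Finset (Fin s))
    (hJ : k' * J.card < (imgk c J).card) (U : Finset (Fin s × Fin (k' + 1)))
    (hUJ : ∀ q ∈ U, q.1 ∈ J) (hU2 : ∀ i ∈ J, 2 ≤ (U.filter fun q => q.1 = i).card) :
    ∃ q ∈ U, ∀ q' ∈ U, c q'.1 q'.2 = c q.1 q.2 → q' = q := by
  classical
  by_contra hcon
  push Not at hcon
  have h1 : ∀ v ∈ U.image (fun q => c q.1 q.2), 2 ≤ (U.filter fun q => c q.1 q.2 = v).card := by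
    intro v hv
    obtain ⟨q, hq, rfl⟩ := mem_image.1 hv
    obtain ⟨q', hq', h2, h3⟩ := hcon q hq
    have h4 : ({q, q'} : Finset (Fin s × Fin (k' + 1))) ⊆
        U.filter fun p => c p.1 p.2 = c q.1 q.2 := by
      intro p hp
      rw [mem_insert, mem_singleton] at hp
      rcases hp with rfl | rfl
      · exact mem_filter.2 ⟨hq, rfl⟩
      · exact mem_filter.2 ⟨hq', h2⟩
    have h5 := card_le_card h4
    rwa [card_pair h3.symm] at h5
  have h2 := Finset.card_eq_sum_card_image (fun q : Fin s × Fin (k' + 1) => c q.1 q.2) U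
  have h3 := Finset.sum_le_sum h1
  rw [← h2, Finset.sum_const, smul_eq_mul] at h3
  -- the other positions
  have h4 : U ⊆ J ×ˢ (univ : Finset (Fin (k' + 1))) := fun q hq =>
    mem_product.2 ⟨hUJ q hq, mem_univ _⟩
  have h5 : imgk c J ⊆ U.image (fun q => c q.1 q.2) ∪
      ((J ×ˢ (univ : Finset (Fin (k' + 1)))) \ U).image fun q => c q.1 q.2 := by
    rw [← image_union, union_sdiff_of_subset h4]
    exact Subset.rfl
  have h6 := (card_le_card h5).trans (card_union_le _ _)
  have h7 : (((J ×ˢ (univ : Finset (Fin (k' + 1)))) \ U).image fun q => c q.1 q.2).card ≤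
      J.card * (k' + 1) - U.card := by
    refine card_image_le.trans ?_
    rw [card_sdiff_of_subset h4, card_product, card_univ, Fintype.card_fin]
  have h8 := card_le_card h4
  rw [card_product, card_univ, Fintype.card_fin] at h8
  have h9 : J.card * 2 ≤ U.card := by
    have h10 : U.card = ∑ i ∈ J, (U.filter fun q => q.1 = i).card :=
      Finset.card_eq_sum_card_fiberwise fun q hq => hUJ q hq
    rw [h10, ← smul_eq_mul, ← Finset.sum_const]
    exact Finset.sum_le_sum hU2
  have h11 : J.card * (k' + 1) = k' * J.card + J.card := by ring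
  omega

/-- the character sums vanish -/
theorem sum_prod_once {s : ℕ} (c : Fin s → Fin K → Fin n) (U : Finset (Fin s × Fin K))
    {q : Fin s × Fin K} (hq : q ∈ U)
    (h1 : ∀ q' ∈ U, c q'.1 q'.2 = c q.1 q.2 → q' = q) :
    ∑ z : Fin n → Bool, ∏ p ∈ U, sg (z (c p.1 p.2)) = 0 := by
  classical
  let fl : (Fin n → Bool) → (Fin n → Bool) := fun z v => if v = c q.1 q.2 then !(z v) else z v
  have hfl : Function.Involutive fl := by
    intro z
    funext v
    simp only [fl]
    split_ifs <;> simp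
  have h2 : ∀ z, ∏ p ∈ U, sg (fl z (c p.1 p.2)) = -∏ p ∈ U, sg (z (c p.1 p.2)) := by
    intro z
    rw [← Finset.mul_prod_erase _ _ hq, ← Finset.mul_prod_erase _ _ hq]
    have h3 : sg (fl z (c q.1 q.2)) = -sg (z (c q.1 q.2)) := by
      simp only [fl, if_true]
      exact sg_not _
    have h4 : ∏ p ∈ U.erase q, sg (fl z (c p.1 p.2)) = ∏ p ∈ U.erase q, sg (z (c p.1 p.2)) := by
      refine Finset.prod_congr rfl fun p hp => ?_
      have h5 : c p.1 p.2 ≠ c q.1 q.2 := fun h =>
        (mem_erase.1 hp).1 (h1 p (mem_erase.1 hp).2 h)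
      simp only [fl, if_neg h5]
    rw [h3, h4]
    ring
  have h3 : ∑ z, ∏ p ∈ U, sg (fl z (c p.1 p.2)) = ∑ z : Fin n → Bool, ∏ p ∈ U, sg (z (c p.1 p.2)) :=
    Equiv.sum_comp hfl.toPerm fun z : Fin n → Bool => ∏ p ∈ U, sg (z (c p.1 p.2))
  rw [Finset.sum_congr rfl fun z _ => h2 z, Finset.sum_neg_distrib] at h3
  linarith

end Pool.Agent.Y601.LD
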