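import Pool.Agent.Y601.LD.Abs

set_option autoImplicit false
set_option linter.unusedSectionVars false

/-!
Sparse systems of linear equations with any number of variables in each equation.
-/

namespace Pool.Agent.Y601.LD

open Finset Pool.Agent.H532R2.MC

/-- the sum (mod 2) of a tuple of bits -/
def xorN : {k : ℕ} → (Fin k → Bool) → Bool
  | 0, _ => false
  | _ + 1, f => f 0 ^^ xorN fun i => f i.succ

theorem sg_xorN {k : ℕ} (f : Fin k → Bool) : sg (xorN f) = ∏ i, sg (f i) := by
  induction k with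
  | zero => simp [xorN, sg]
  | succ k ih =>
    rw [Fin.prod_univ_succ, ← ih, ← sg_xor]
    rfl

variable {n m k : ℕ}

/-- the variables of the equations in `J` -/
def imgk (c : Fin m → Fin k → Fin n) (J : Finset (Fin m)) : Finset (Fin n) :=
  (J ×ˢ (univ : Finset (Fin k))).image fun q => c q.1 q.2

/-- the values of the left-hand sides -/
def evk (c : Fin m → Fin k → Fin n) (z : Fin n → Bool) (j : Fin m) : Bool :=
  xorN fun s => z (c j s)

theorem pow_self_le (N : ℕ) : (N : ℝ) ^ N / N.factorial ≤ 3 ^ N := by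
  refine (Real.pow_div_factorial_le_exp (N : ℝ) (Nat.cast_nonneg _) N).trans ?_
  have h1 : Real.exp N = Real.exp 1 ^ N := by
    rw [← Real.exp_nat_mul, mul_one]
  rw [h1]
  exact pow_le_pow_left₀ (Real.exp_pos _).le (by linarith [Real.exp_one_lt_d9]) _

/-- the number of the systems which are bad for `J` -/
theorem card_bad {h : ℕ} (J : Finset (Fin m)) (hJ : h * J.card ≤ n) :
    (((univ : Finset (Fin m → Fin (2 * h) → Fin n)).filter fun c =>
      (imgk c J).card ≤ h * J.card).card : ℝ) ≤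
      ((n : ℝ) ^ h * (3 * (h * J.card : ℕ)) ^ h) ^ J.card * ((n : ℝ) ^ (2 * h)) ^ (m - J.card) := by
  classical
  obtain ⟨u, hu⟩ : ∃ u : ℕ, u = h * J.card := ⟨_, rfl⟩
  rw [← hu] at hJ ⊢
  have hsub : ((univ : Finset (Fin m → Fin (2 * h) → Fin n)).filter fun c =>
      (imgk c J).card ≤ u) ⊆ (powersetCard u (univ : Finset (Fin n))).biUnion fun U =>
      Fintype.piFinset fun i => if i ∈ J then (Fintype.piFinset fun _ => U) else univ := by
    intro c hc
    obtain ⟨U, hU1, hU2⟩ := Finset.exists_superset_card_eq (mem_filter.1 hc).2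
      (by rw [Fintype.card_fin]; exact hJ)
    refine mem_biUnion.2 ⟨U, mem_powersetCard.2 ⟨subset_univ _, hU2⟩, ?_⟩
    rw [Fintype.mem_piFinset]
    intro i
    by_cases hi : i ∈ J
    · rw [if_pos hi, Fintype.mem_piFinset]
      intro s
      exact hU1 (mem_image.2 ⟨(i, s), mem_product.2 ⟨hi, mem_univ _⟩, rfl⟩)
    · rw [if_neg hi]
      exact mem_univ _
  have hcard : ∀ U ∈ powersetCard u (univ : Finset (Fin n)),
      (Fintype.piFinset fun i : Fin m => if i ∈ J then
        (Fintype.piFinset fun _ : Fin (2 * h) => U) else univ).card =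
        (u ^ (2 * h)) ^ J.card * (n ^ (2 * h)) ^ (m - J.card) := by
    intro U hU
    have hU2 := (mem_powersetCard.1 hU).2
    rw [Fintype.card_piFinset]
    have h1 : ∀ i : Fin m, (if i ∈ J then (Fintype.piFinset fun _ : Fin (2 * h) => U)
        else univ).card = if i ∈ J then u ^ (2 * h) else n ^ (2 * h) := by
      intro i
      split_ifs
      · rw [Fintype.card_piFinset_const, hU2]
      · rw [card_univ, Fintype.card_fun, Fintype.card_fin, Fintype.card_fin]
    rw [Finset.prod_congr rfl fun i _ => h1 i, Finset.prod_ite, Finset.prod_const,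
      Finset.prod_const]
    congr 2
    · congr 1
      ext i
      simp
    · rw [Finset.filter_not, card_sdiff_of_subset (filter_subset _ _), card_univ,
        Fintype.card_fin]
      congr 2
      ext i
      simp
  have h1 := (card_le_card hsub).trans (card_biUnion_le.trans (le_of_eq
    (Finset.sum_congr rfl hcard)))
  rw [Finset.sum_const, card_powersetCard, card_univ, Fintype.card_fin, smul_eq_mul] at h1
  have h2 : (((univ : Finset (Fin m → Fin (2 * h) → Fin n)).filter fun c =>
      (imgk c J).card ≤ u).card : ℝ) ≤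
      (n.choose u : ℝ) * (((u : ℝ) ^ (2 * h)) ^ J.card * ((n : ℝ) ^ (2 * h)) ^ (m - J.card)) := by
    exact_mod_cast h1
  refine h2.trans ?_
  rw [← mul_assoc]
  refine mul_le_mul_of_nonneg_right ?_ (by positivity)
  -- the binomial coefficient
  have h3 : (n.choose u : ℝ) ≤ (n : ℝ) ^ u / u.factorial := Nat.choose_le_pow_div u n
  calc (n.choose u : ℝ) * ((u : ℝ) ^ (2 * h)) ^ J.card
      ≤ ((n : ℝ) ^ u / u.factorial) * ((u : ℝ) ^ (2 * h)) ^ J.card :=
        mul_le_mul_of_nonneg_right h3 (by positivity)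
    _ = (n : ℝ) ^ u * ((u : ℝ) ^ u / u.factorial) * (u : ℝ) ^ u := by
        have h4 : ((u : ℝ) ^ (2 * h)) ^ J.card = (u : ℝ) ^ u * (u : ℝ) ^ u := by
          rw [← pow_mul, ← pow_add]
          congr 1
          rw [hu]
          ring
        rw [h4]
        ring
    _ ≤ (n : ℝ) ^ u * 3 ^ u * (u : ℝ) ^ u := by
        refine mul_le_mul_of_nonneg_right ?_ (by positivity)
        exact mul_le_mul_of_nonneg_left (pow_self_le u) (by positivity)
    _ = ((n : ℝ) ^ h * (3 * (u : ℕ)) ^ h) ^ J.card := by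
        rw [mul_pow ((n : ℝ) ^ h), ← pow_mul, ← pow_mul, ← hu, mul_pow]
        ring

/-- **Random sparse systems.** -/
theorem exists_sys {h r : ℕ} (hh : 1 ≤ h) (hn : 1 ≤ n) (hr : 4 * m * (3 * (h * r)) ^ h ≤ n ^ h) :
    ∃ c : Fin m → Fin (2 * h) → Fin n, ∀ J : Finset (Fin m), 1 ≤ J.card → J.card ≤ r →
      h * J.card < (imgk c J).card := by
  classical
  rcases Nat.eq_zero_or_pos m with hm | hm
  · subst hm
    refine ⟨fun i => i.elim0, fun J hJ => ?_⟩
    obtain ⟨i, -⟩ := card_pos.1 hJ
    exact i.elim0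
  have hrn : h * r ≤ n := by
    have h1 : (3 * (h * r)) ^ h ≤ n ^ h :=
      le_trans (Nat.le_mul_of_pos_left _ (by omega)) hr
    have h2 := (Nat.pow_le_pow_iff_left (by omega)).1 h1
    omega
  by_contra hcon
  push Not at hcon
  have hm' : (0 : ℝ) < m := by exact_mod_cast hm
  have hn' : (0 : ℝ) < n := by exact_mod_cast hn
  have hsub : (univ : Finset (Fin m → Fin (2 * h) → Fin n)) ⊆
      ((univ : Finset (Finset (Fin m))).filter fun J => 1 ≤ J.card ∧ J.card ≤ r).biUnion
        fun J => univ.filter fun c => (imgk c J).card ≤ h * J.card := by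
    intro c _
    obtain ⟨J, h1, h2, h3⟩ := hcon c
    exact mem_biUnion.2 ⟨J, mem_filter.2 ⟨mem_univ _, h1, h2⟩, mem_filter.2 ⟨mem_univ _, h3⟩⟩
  have h1 := (card_le_card hsub).trans card_biUnion_le
  rw [card_univ, Fintype.card_fun, Fintype.card_fun, Fintype.card_fin, Fintype.card_fin,
    Fintype.card_fin] at h1
  obtain ⟨N, hN⟩ : ∃ N : ℝ, N = (n : ℝ) ^ (2 * h) := ⟨_, rfl⟩
  have hN0 : 0 < N := by rw [hN]; positivity
  have h2 : N ^ m ≤ ∑ J ∈ (univ : Finset (Finset (Fin m))).filter fun J =>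
      1 ≤ J.card ∧ J.card ≤ r, ((univ.filter fun c : Fin m → Fin (2 * h) → Fin n =>
        (imgk c J).card ≤ h * J.card).card : ℝ) := by
    rw [hN]
    exact_mod_cast h1
  obtain ⟨x, hx⟩ : ∃ x : ℝ, x = 1 / (4 * m) := ⟨_, rfl⟩
  have hx0 : 0 < x := by rw [hx]; positivity
  have h3 : ∀ J ∈ (univ : Finset (Finset (Fin m))).filter (fun J => 1 ≤ J.card ∧ J.card ≤ r),
      ((univ.filter fun c : Fin m → Fin (2 * h) → Fin n =>
        (imgk c J).card ≤ h * J.card).card : ℝ) ≤ N ^ m * x ^ J.card := by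
    intro J hJ
    obtain ⟨-, hJ1, hJ2⟩ := mem_filter.1 hJ
    refine (card_bad J ((Nat.mul_le_mul_left h hJ2).trans hrn)).trans ?_
    have h4 : (n : ℝ) ^ h * (3 * (h * J.card : ℕ)) ^ h ≤ N * x := by
      have h5 : (3 * ((h * J.card : ℕ) : ℝ)) ^ h ≤ (3 * ((h * r : ℕ) : ℝ)) ^ h := by
        refine pow_le_pow_left₀ (by positivity) ?_ h
        have : ((h * J.card : ℕ) : ℝ) ≤ ((h * r : ℕ) : ℝ) := by
          exact_mod_cast Nat.mul_le_mul_left h hJ2
        linarith
      have h6 : 4 * (m : ℝ) * (3 * ((h * r : ℕ) : ℝ)) ^ h ≤ (n : ℝ) ^ h := by exact_mod_cast hr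
      have h7 : (3 * ((h * r : ℕ) : ℝ)) ^ h ≤ (n : ℝ) ^ h * x := by
        rw [hx, mul_one_div, le_div_iff₀ (by positivity)]
        linarith
      calc (n : ℝ) ^ h * (3 * (h * J.card : ℕ)) ^ h ≤ (n : ℝ) ^ h * ((n : ℝ) ^ h * x) :=
            mul_le_mul_of_nonneg_left (h5.trans h7) (by positivity)
        _ = N * x := by rw [hN]; ring
    have hJm : J.card ≤ m := by
      have := card_le_univ J
      rwa [Fintype.card_fin] at this
    calc ((n : ℝ) ^ h * (3 * (h * J.card : ℕ)) ^ h) ^ J.card *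
          ((n : ℝ) ^ (2 * h)) ^ (m - J.card) ≤ (N * x) ^ J.card * N ^ (m - J.card) := by
          rw [← hN]
          exact mul_le_mul_of_nonneg_right (pow_le_pow_left₀ (by positivity) h4 _)
            (by positivity)
      _ = N ^ m * x ^ J.card := by
          rw [mul_pow]
          calc N ^ J.card * x ^ J.card * N ^ (m - J.card) =
                (N ^ J.card * N ^ (m - J.card)) * x ^ J.card := by ring
            _ = _ := by rw [← pow_add, Nat.add_sub_cancel' hJm]
  have h4 : ∑ J ∈ (univ : Finset (Finset (Fin m))).filter (fun J => 1 ≤ J.card ∧ J.card ≤ r),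
      N ^ m * x ^ J.card ≤ N ^ m * ((x + 1) ^ m - 1) := by
    rw [← Finset.mul_sum]
    refine mul_le_mul_of_nonneg_left ?_ (by positivity)
    have h5 : ∑ J : Finset (Fin m), x ^ J.card = (x + 1) ^ m := by
      have h6 := Fintype.sum_pow_mul_eq_add_pow (Fin m) x 1
      rw [Fintype.card_fin] at h6
      rw [← h6]
      refine Finset.sum_congr rfl fun J _ => ?_
      rw [one_pow, mul_one]
    rw [← h5, ← Finset.add_sum_erase univ (fun J : Finset (Fin m) => x ^ J.card) (mem_univ ∅),
      card_empty, pow_zero, add_sub_cancel_left]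
    refine Finset.sum_le_sum_of_subset_of_nonneg ?_ fun _ _ _ => by positivity
    intro J hJ
    rw [mem_erase]
    refine ⟨?_, mem_univ _⟩
    rintro rfl
    have := (mem_filter.1 hJ).2.1
    simp at this
  have h5 : (x + 1) ^ m < 2 := by
    have h6 : (x + 1) ^ m ≤ Real.exp (1 / 4) := by
      calc (x + 1) ^ m ≤ (Real.exp x) ^ m :=
            pow_le_pow_left₀ (by positivity) (Real.add_one_le_exp x) m
        _ = Real.exp (1 / 4) := by
            rw [← Real.exp_nat_mul, hx]
            congr 1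
            field_simp
    refine h6.trans_lt ?_
    have h7 : Real.exp (1 / 4) ^ 4 < 2 ^ 4 := by
      rw [← Real.exp_nat_mul]
      norm_num
      linarith [Real.exp_one_lt_d9]
    exact lt_of_pow_lt_pow_left₀ 4 (by norm_num) h7
  have h6 := h2.trans ((Finset.sum_le_sum h3).trans h4)
  have h7 : N ^ m * ((x + 1) ^ m - 1) < N ^ m * 1 :=
    mul_lt_mul_of_pos_left (by linarith) (by positivity)
  linarith

/-- a variable that occurs only once -/
theorem exists_once {h : ℕ} (c : Fin m → Fin (2 * h) → Fin n) (J : Finset (Fin m))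
    (hJ : h * J.card < (imgk c J).card) :
    ∃ q ∈ J ×ˢ (univ : Finset (Fin (2 * h))), ∀ q' ∈ J ×ˢ (univ : Finset (Fin (2 * h))),
      c q'.1 q'.2 = c q.1 q.2 → q' = q := by
  classical
  by_contra hcon
  push Not at hcon
  have h1 : ∀ v ∈ imgk c J, 2 ≤ ((J ×ˢ (univ : Finset (Fin (2 * h)))).filter
      fun q => c q.1 q.2 = v).card := by
    intro v hv
    obtain ⟨q, hq, rfl⟩ := mem_image.1 hv
    obtain ⟨q', hq', h2, h3⟩ := hcon q hq
    have h4 : ({q, q'} : Finset (Fin m × Fin (2 * h))) ⊆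
        (J ×ˢ (univ : Finset (Fin (2 * h)))).filter fun p => c p.1 p.2 = c q.1 q.2 := by
      intro p hp
      rw [mem_insert, mem_singleton] at hp
      rcases hp with rfl | rfl
      · exact mem_filter.2 ⟨hq, rfl⟩
      · exact mem_filter.2 ⟨hq', h2⟩
    have h5 := card_le_card h4
    rwa [card_pair h3.symm] at h5
  have h2 := Finset.card_eq_sum_card_image (fun q : Fin m × Fin (2 * h) => c q.1 q.2)
    (J ×ˢ (univ : Finset (Fin (2 * h))))
  have h3 := Finset.sum_le_sum h1
  unfold imgk at h3 hJ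
  rw [← h2, Finset.sum_const, card_product, card_univ, Fintype.card_fin, smul_eq_mul] at h3
  nlinarith

theorem chi_evk (c : Fin m → Fin k → Fin n) (S : Finset (Fin m)) (z : Fin n → Bool) :
    chi S (evk c z) = ∏ q ∈ S ×ˢ (univ : Finset (Fin k)), sg (z (c q.1 q.2)) := by
  rw [Finset.prod_product]
  unfold chi evk
  exact Finset.prod_congr rfl fun j _ => sg_xorN _

theorem sg_not (b : Bool) : sg (!b) = -sg b := by cases b <;> simp [sg]

/-- the character sums vanish -/
theorem sum_chi_evk (c : Fin m → Fin k → Fin n) (S : Finset (Fin m)) {q : Fin m × Fin k}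
    (hq : q ∈ S ×ˢ (univ : Finset (Fin k)))
    (h1 : ∀ q' ∈ S ×ˢ (univ : Finset (Fin k)), c q'.1 q'.2 = c q.1 q.2 → q' = q) :
    ∑ z, chi S (evk c z) = 0 := by
  classical
  let fl : (Fin n → Bool) → (Fin n → Bool) := fun z v => if v = c q.1 q.2 then !(z v) else z v
  have hfl : Function.Involutive fl := by
    intro z
    funext v
    simp only [fl]
    split_ifs <;> simp
  have h2 : ∀ z, chi S (evk c (fl z)) = -chi S (evk c z) := by
    intro z
    rw [chi_evk, chi_evk, ← Finset.mul_prod_erase _ _ hq, ← Finset.mul_prod_erase _ _ hq]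
    have h3 : sg (fl z (c q.1 q.2)) = -sg (z (c q.1 q.2)) := by
      simp only [fl, if_true]
      exact sg_not _
    have h4 : ∏ p ∈ (S ×ˢ (univ : Finset (Fin k))).erase q, sg (fl z (c p.1 p.2)) =
        ∏ p ∈ (S ×ˢ (univ : Finset (Fin k))).erase q, sg (z (c p.1 p.2)) := by
      refine Finset.prod_congr rfl fun p hp => ?_
      have h5 : c p.1 p.2 ≠ c q.1 q.2 := fun h =>
        (mem_erase.1 hp).1 (h1 p (mem_erase.1 hp).2 h)
      simp only [fl, if_neg h5]
    rw [h3, h4]
    ring
  have h3 : ∑ z, chi S (evk c (fl z)) = ∑ z, chi S (evk c z) :=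
    Equiv.sum_comp hfl.toPerm fun z => chi S (evk c z)
  rw [Finset.sum_congr rfl fun z _ => h2 z, Finset.sum_neg_distrib] at h3
  linarith

/-- different equations have different tuples of variables -/
theorem sys_inj {h r : ℕ} (hr : 2 ≤ r) (c : Fin m → Fin (2 * h) → Fin n)
    (hc : ∀ J : Finset (Fin m), 1 ≤ J.card → J.card ≤ r → h * J.card < (imgk c J).card) :
    Function.Injective c := by
  classical
  intro i j hij
  by_contra hne
  have h1 := hc {i, j} (by rw [card_pair hne]; norm_num) (by rw [card_pair hne]; exact hr)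
  obtain ⟨q, hq, h2⟩ := exists_once c {i, j} h1
  have h3 := h2 (i, q.2) (mem_product.2 ⟨by simp, mem_univ _⟩)
  have h4 := h2 (j, q.2) (mem_product.2 ⟨by simp, mem_univ _⟩)
  rw [mem_product, mem_insert, mem_singleton] at hq
  rcases hq.1 with h5 | h5
  · have h6 := h4 (by rw [h5, hij])
    exact hne (by rw [← h5, ← h6])
  · have h6 := h3 (by rw [h5, hij])
    exact hne (by rw [← h5, ← h6])

end Pool.Agent.Y601.LD
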