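import Pool.Agent.Y601.LD.BitDefs

set_option autoImplicit false

/-!
Vertex covers of graphs whose vertices have the weights 0 and 1.
-/

namespace Pool.Agent.Y601.LD

open Finset

/-- `a` is the adjacency matrix of a simple graph with the vertices `0, …, n - 1`. -/
def IsGraph {n : ℕ} (a : Fin n × Fin n → Bool) : Prop :=
  ∀ u v, a (u, v) = a (v, u) ∧ a (u, u) = false

/-- `C` is a vertex cover. -/
def IsCover {n : ℕ} (a : Fin n × Fin n → Bool) (C : Finset (Fin n)) : Prop :=
  ∀ u v, a (u, v) = true → u ∈ C ∨ v ∈ C

/-- The weight of a set of vertices: the number of its vertices `v` of weight one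
(`w v = true`). -/
def weight {n : ℕ} (w : Fin n → Bool) (C : Finset (Fin n)) : ℕ := (C.filter fun v => w v = true).card

/-- The function `φ` of the graph and of the weights is positive if there is a vertex cover of
weight at most `k`, and not positive if all vertex covers have weight at least `ρ * k`. -/
def Tells {n : ℕ} (k : ℕ) (ρ : ℝ) (φ : (Fin n × Fin n → Bool) → (Fin n → Bool) → ℝ) : Prop :=
  ∀ (a : Fin n × Fin n → Bool) (w : Fin n → Bool), IsGraph a →
    ((∃ C, IsCover a C ∧ weight w C ≤ k) → 0 < φ a w) ∧
    ((∀ C, IsCover a C → ρ * k ≤ weight w C) → φ a w ≤ 0)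

end Pool.Agent.Y601.LD
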