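import Pool.Agent.Y601.LD.VCSix
import Pool.Agent.Y601.LD.BitCirc

set_option autoImplicit false
set_option linter.unusedSectionVars false

/-!
Vertex cover: both ratios, trees with ranks and trees with circuits.
-/

namespace Pool.Agent.Y601.LD

open Finset

theorem Tells.mono {n k : ℕ} {ρ ρ' : ℝ} {φ : (Fin n × Fin n → Bool) → (Fin n → Bool) → ℝ}
    (h : Tells k ρ φ) (hρ : ρ ≤ ρ') : Tells k ρ' φ := fun a w ha =>
  ⟨(h a w ha).1, fun h1 => (h a w ha).2 fun C hC =>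
    (mul_le_mul_of_nonneg_right hρ (Nat.cast_nonneg _)).trans (h1 C hC)⟩

/-- from ranks to circuits -/
theorem circ_of_rank {n k : ℕ} {ρ B : ℝ}
    (h : ∀ T : GraphTree n (LowRank (Fin n × Fin n → Bool) (Fin n → Bool)),
      Tells k ρ (fun a w => (T.label a w).val a w) → B ≤ (T.total fun l => l.r + 1 : ℕ))
    (R : ℕ) (T : GraphTree n (BitCircuit (Fin n × Fin n) (Fin n) R))
    (hT : Tells k ρ fun a w => (T.label a w).val a w) :
    B ≤ ((2 * R + 1) * T.total fun c => c.S + 1 : ℕ) := by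
  have h1 := h (T.map bitLow) (by
    have h2 : (fun (a : Fin n × Fin n → Bool) (w : Fin n → Bool) =>
        ((T.map bitLow).label a w).val a w) = fun a w => (T.label a w).val a w := by
      funext a w
      rw [map_label, bitLow_val]
    rw [h2]
    exact hT)
  exact h1.trans (by exact_mod_cast bit_total T)

theorem vc_fin {ε : ℝ} (hε : 0 < ε) :
    (∃ γ : ℝ, 0 < γ ∧ ∃ n₀ : ℕ, ∀ n : ℕ, n₀ ≤ n → ∃ k : ℕ, 0 < k ∧
      (∀ T : GraphTree n (LowRank (Fin n × Fin n → Bool) (Fin n → Bool)),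
        Tells k (2 - ε) (fun a w => (T.label a w).val a w) →
        (n : ℝ) ^ (γ * Real.log n) ≤ (T.total fun l => l.r + 1 : ℕ)) ∧
      ∀ (R : ℕ) (T : GraphTree n (BitCircuit (Fin n × Fin n) (Fin n) R)),
        Tells k (2 - ε) (fun a w => (T.label a w).val a w) →
        (n : ℝ) ^ (γ * Real.log n) ≤ ((2 * R + 1) * T.total fun c => c.S + 1 : ℕ)) ∧
    ∃ γ : ℝ, 0 < γ ∧ ∃ n₀ : ℕ, ∀ n : ℕ, n₀ ≤ n → ∃ k : ℕ, 0 < k ∧
      (∀ T : GraphTree n (LowRank (Fin n × Fin n → Bool) (Fin n → Bool)),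
        Tells k (7 / 6 - ε) (fun a w => (T.label a w).val a w) →
        (2 : ℝ) ^ (γ * n) ≤ (T.total fun l => l.r + 1 : ℕ)) ∧
      ∀ (R : ℕ) (T : GraphTree n (BitCircuit (Fin n × Fin n) (Fin n) R)),
        Tells k (7 / 6 - ε) (fun a w => (T.label a w).val a w) →
        (2 : ℝ) ^ (γ * n) ≤ ((2 * R + 1) * T.total fun c => c.S + 1 : ℕ) := by
  constructor
  · obtain ⟨E, hE⟩ := exists_nat_ge (1 / ε)
    have hE0 : (0 : ℝ) < E := lt_of_lt_of_le (by positivity) hE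
    have hE1 : 1 ≤ E := by exact_mod_cast hE0
    have hEε : 1 / (E : ℝ) ≤ ε := by
      rw [div_le_iff₀ hE0]
      rw [div_le_iff₀ hε] at hE
      linarith
    obtain ⟨γ, hγ, n₀, h⟩ := vc_two_main hE1
    refine ⟨γ, hγ, n₀, fun n hn => ?_⟩
    obtain ⟨k, hk0, hk⟩ := h n hn
    have h1 : ∀ T : GraphTree n (LowRank (Fin n × Fin n → Bool) (Fin n → Bool)),
        Tells k (2 - ε) (fun a w => (T.label a w).val a w) →
        (n : ℝ) ^ (γ * Real.log n) ≤ (T.total fun l => l.r + 1 : ℕ) := fun T hT =>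
      hk T (hT.mono (by linarith))
    exact ⟨k, hk0, h1, fun R T hT => circ_of_rank h1 R T hT⟩
  · obtain ⟨γ, hγ, n₀, h⟩ := vc_six_main (ε := min ε (1 / 4)) (lt_min hε (by norm_num))
      (lt_of_le_of_lt (min_le_right _ _) (by norm_num))
    refine ⟨γ, hγ, n₀, fun n hn => ?_⟩
    obtain ⟨k, hk0, hk⟩ := h n hn
    have h1 : ∀ T : GraphTree n (LowRank (Fin n × Fin n → Bool) (Fin n → Bool)),
        Tells k (7 / 6 - ε) (fun a w => (T.label a w).val a w) →
        (2 : ℝ) ^ (γ * n) ≤ (T.total fun l => l.r + 1 : ℕ) := fun T hT =>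
      hk T (hT.mono (by linarith [min_le_left ε (1 / 4)]))
    exact ⟨k, hk0, h1, fun R T hT => circ_of_rank h1 R T hT⟩

end Pool.Agent.Y601.LD
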