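import Pool.Agent.Y601.LD.VCDefs
import Pool.Agent.Y601.LD.Sys

set_option autoImplicit false
set_option linter.unusedSectionVars false

/-!
The graph of local assignments.
-/

namespace Pool.Agent.Y601.LD

open Finset

variable {s k N n : ℕ} {P B X : Type} [Fintype P] [Fintype B] [DecidableEq P] [DecidableEq B]

/-- the vertices: a constraint, one of its versions and a local assignment -/
abbrev Vx (s : ℕ) (P B : Type) := Fin s × P × B

section

variable (c : Fin s → Fin k → Fin N) (la : Vx s P B → Fin k → Bool)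

/-- contradiction of local assignments -/
def Conf (u v : Vx s P B) : Prop := ∃ j j', c u.1 j = c v.1 j' ∧ la u j ≠ la v j'

variable (ι : Vx s P B → Fin n)

open Classical in
/-- the adjacency matrix -/
noncomputable def gr (q : Fin n × Fin n) : Bool :=
  decide (∃ u v, ι u = q.1 ∧ ι v = q.2 ∧ Conf c la u v)

open Classical in
/-- the weights -/
noncomputable def wt (y : Fin s → P) (v : Fin n) : Bool :=
  decide (∃ i β, ι (i, y i, β) = v)

end

variable {c : Fin s → Fin k → Fin N} {la : Vx s P B → Fin k → Bool} {ι : Vx s P B → Fin n}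

theorem conf_symm {u v : Vx s P B} (h : Conf c la u v) : Conf c la v u := by
  obtain ⟨j, j', h1, h2⟩ := h
  exact ⟨j', j, h1.symm, h2.symm⟩

theorem gr_graph (hι : Function.Injective ι) (hc : ∀ i, Function.Injective (c i)) :
    IsGraph (gr c la ι) := by
  intro u v
  constructor
  · unfold gr
    congr 1
    rw [eq_iff_iff]
    constructor
    · rintro ⟨p, q, h1, h2, h3⟩
      exact ⟨q, p, h2, h1, conf_symm h3⟩
    · rintro ⟨p, q, h1, h2, h3⟩
      exact ⟨q, p, h2, h1, conf_symm h3⟩
  · unfold gr
    rw [decide_eq_false_iff_not]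
    rintro ⟨p, q, h1, h2, j, j', h3, h4⟩
    have h5 : p = q := hι (h1.trans h2.symm)
    subst h5
    exact h4 (by rw [hc _ h3])

/-- the set of the vertices of weight one -/
theorem card_wt (hι : Function.Injective ι) (y : Fin s → P) :
    (univ.filter fun v => wt ι y v = true).card = Fintype.card B * s := by
  have h1 : (univ.filter fun v => wt ι y v = true) =
      (univ : Finset (Fin s × B)).image fun q => ι (q.1, y q.1, q.2) := by
    ext v
    rw [mem_filter, mem_image]
    unfold wt
    rw [decide_eq_true_eq]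
    constructor
    · rintro ⟨-, i, β, h⟩
      exact ⟨(i, β), mem_univ _, h⟩
    · rintro ⟨q, -, h⟩
      exact ⟨mem_univ _, q.1, q.2, h⟩
  rw [h1, card_image_of_injective, card_univ, Fintype.card_prod, Fintype.card_fin, mul_comm]
  intro q q' h
  have h2 := hι h
  rw [Prod.mk.injEq, Prod.mk.injEq] at h2
  exact Prod.ext h2.1 h2.2.2

/-- a satisfied system gives a small cover -/
theorem small_cover (hι : Function.Injective ι) (y : Fin s → P) (z : Fin N → Bool)
    (hz : ∀ i, ∃ β, ∀ j, la (i, y i, β) j = z (c i j)) :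
    ∃ C, IsCover (gr c la ι) C ∧ weight (wt ι y) C + s ≤ Fintype.card B * s := by
  classical
  choose β hβ using hz
  let A : Finset (Fin n) := univ.image fun i => ι (i, y i, β i)
  have hA : A.card = s := by
    rw [card_image_of_injective, card_univ, Fintype.card_fin]
    intro i i' h
    have h2 := hι h
    rw [Prod.mk.injEq] at h2
    exact h2.1
  refine ⟨univ \ A, ?_, ?_⟩
  · intro u v huv
    by_contra hcon
    push Not at hcon
    obtain ⟨h1, h2⟩ := hcon
    rw [mem_sdiff, not_and, not_not] at h1 h2
    obtain ⟨i, -, rfl⟩ := mem_image.1 (h1 (mem_univ _))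
    obtain ⟨i', -, rfl⟩ := mem_image.1 (h2 (mem_univ _))
    unfold gr at huv
    rw [decide_eq_true_eq] at huv
    obtain ⟨p, q, h3, h4, j, j', h5, h6⟩ := huv
    have h7 := hι h3
    have h8 := hι h4
    subst h7 h8
    exact h6 (by rw [hβ, hβ, h5])
  · have h1 : A ⊆ univ.filter fun v => wt ι y v = true := by
      intro v hv
      obtain ⟨i, -, rfl⟩ := mem_image.1 hv
      refine mem_filter.2 ⟨mem_univ _, ?_⟩
      unfold wt
      rw [decide_eq_true_eq]
      exact ⟨i, β i, rfl⟩
    have h2 : ((univ \ A).filter fun v => wt ι y v = true) =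
        (univ.filter fun v => wt ι y v = true) \ A := by
      ext v
      simp only [mem_filter, mem_sdiff, mem_univ, true_and]
      tauto
    unfold weight
    rw [h2, card_sdiff_of_subset h1, card_wt hι, hA]
    have h3 := card_le_card h1
    rw [card_wt hι, hA] at h3
    omega

/-- covers are large if no assignment satisfies many constraints -/
theorem large_cover (hι : Function.Injective ι)
    (hla : ∀ i p, Function.Injective fun β => la (i, p, β)) (y : Fin s → P) {S : ℕ}
    (hz : ∀ z : Fin N → Bool, (univ.filter fun i => ∃ β, ∀ j, la (i, y i, β) j = z (c i j)).card ≤ S)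
    (C : Finset (Fin n)) (hC : IsCover (gr c la ι) C) :
    Fintype.card B * s ≤ weight (wt ι y) C + S := by
  classical
  -- the vertices outside of the cover
  let D : Finset (Fin s × B) := univ.filter fun q => ι (q.1, y q.1, q.2) ∉ C
  have hD : ∀ q ∈ D, ∀ q' ∈ D, ¬ Conf c la (q.1, y q.1, q.2) (q'.1, y q'.1, q'.2) := by
    intro q hq q' hq' h
    have h1 := hC (ι (q.1, y q.1, q.2)) (ι (q'.1, y q'.1, q'.2)) (by
      unfold gr
      rw [decide_eq_true_eq]
      exact ⟨_, _, rfl, rfl, h⟩)
    rcases h1 with h1 | h1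
    · exact (mem_filter.1 hq).2 h1
    · exact (mem_filter.1 hq').2 h1
  have hinj : Set.InjOn (Prod.fst : Fin s × B → Fin s) D := by
    intro q hq q' hq' h
    by_contra hne
    have h1 : q.2 ≠ q'.2 := fun h2 => hne (Prod.ext h h2)
    have h2 : la (q.1, y q.1, q.2) ≠ la (q.1, y q.1, q'.2) := fun h3 => h1 (hla _ _ h3)
    obtain ⟨j, hj⟩ := Function.ne_iff.1 h2
    refine hD q (mem_coe.1 hq) q' (mem_coe.1 hq') ⟨j, j, by rw [← h], ?_⟩
    rw [← h]
    exact hj
  -- an assignment
  let z : Fin N → Bool := fun v => decide (∃ q ∈ D, ∃ j, c q.1 j = v ∧ la (q.1, y q.1, q.2) j = true)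
  have hzD : ∀ q ∈ D, ∀ j, la (q.1, y q.1, q.2) j = z (c q.1 j) := by
    intro q hq j
    cases h1 : la (q.1, y q.1, q.2) j with
    | true =>
      symm
      simp only [z, decide_eq_true_eq]
      exact ⟨q, hq, j, rfl, h1⟩
    | false =>
      symm
      simp only [z, decide_eq_false_iff_not]
      rintro ⟨q', hq', j', h2, h3⟩
      exact hD q hq q' hq' ⟨j, j', h2.symm, by rw [h1, h3]; simp⟩
  have h1 : D.card ≤ S := by
    rw [← card_image_of_injOn hinj]
    refine (card_le_card ?_).trans (hz z)
    intro i hi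
    obtain ⟨q, hq, rfl⟩ := mem_image.1 hi
    exact mem_filter.2 ⟨mem_univ _, q.2, hzD q hq⟩
  have h2 : (univ.filter fun v => wt ι y v = true) ⊆
      (C.filter fun v => wt ι y v = true) ∪ D.image fun q => ι (q.1, y q.1, q.2) := by
    intro v hv
    by_cases hvC : v ∈ C
    · exact mem_union_left _ (mem_filter.2 ⟨hvC, (mem_filter.1 hv).2⟩)
    · have h3 := (mem_filter.1 hv).2
      unfold wt at h3
      rw [decide_eq_true_eq] at h3
      obtain ⟨i, β, rfl⟩ := h3
      exact mem_union_right _ (mem_image.2 ⟨(i, β), mem_filter.2 ⟨mem_univ _, hvC⟩, rfl⟩)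
  have h3 := (card_le_card h2).trans (card_union_le _ _)
  rw [card_wt hι] at h3
  have h4 : (D.image fun q => ι (q.1, y q.1, q.2)).card ≤ D.card := card_image_le
  unfold weight
  omega

end Pool.Agent.Y601.LD
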