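import Pool.Agent.Y601.LD.VCTwoMain

set_option autoImplicit false
set_option linter.unusedSectionVars false

/-!
Vertex cover with the ratio `7 / 6`.
-/

namespace Pool.Agent.Y601.LD

open Finset Pool.Agent.H532R2.MC
open Pool.Agent.Y601.GS (ev vio nearSet ev_mem_nearSet sum_chi_ev exists_system)

variable {m n N : ℕ}

/-- the local assignments -/
def loc3 (x : Fin m × Bool → Bool) (u : Vx m (Bool × Bool) (Bool × Bool)) : Fin 3 → Bool :=
  ![u.2.2.1, u.2.2.2, (u.2.2.1 ^^ u.2.2.2) ^^ (x (u.1, u.2.1.1) ^^ u.2.1.2)]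

theorem loc3_inj (x : Fin m × Bool → Bool) (i : Fin m) (p : Bool × Bool) :
    Function.Injective fun β => loc3 x (i, p, β) := fun β β' h =>
  Prod.ext (congrFun h 0) (congrFun h 1)

theorem loc3_sat (c : Fin m → Fin 3 → Fin N) (x : Fin m × Bool → Bool)
    (y : (Fin m → Bool) × (Fin m → Bool)) (z : Fin N → Bool) (i : Fin m) :
    (∃ β, ∀ j, loc3 x (i, (y.1 i, y.2 i), β) j = z (c i j)) ↔ ev c z i = comb x y i := by
  unfold ev comb
  constructor
  · rintro ⟨β, hβ⟩
    have h0 : β.1 = z (c i 0) := hβ 0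
    have h1 : β.2 = z (c i 1) := hβ 1
    have h2 : ((β.1 ^^ β.2) ^^ (x (i, y.1 i) ^^ y.2 i)) = z (c i 2) := hβ 2
    rw [h0, h1] at h2
    rw [← h2]
    exact Pool.Agent.Y601.GS.xor_cancel _ _
  · intro h
    refine ⟨(z (c i 0), z (c i 1)), fun j => ?_⟩
    fin_cases j
    · rfl
    · rfl
    · show ((z (c i 0) ^^ z (c i 1)) ^^ (x (i, y.1 i) ^^ y.2 i)) = z (c i 2)
      rw [← h]
      exact Pool.Agent.Y601.GS.xor_cancel _ _

/-- **Vertex cover, ratio `7 / 6`, for one system.** -/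
theorem vc_six {ε : ℝ} (hε : 0 < ε) (hε1 : ε < 1 / 2) (c : Fin m → Fin 3 → Fin N) (hm : 1 ≤ m)
    (hci : ∀ j, Function.Injective (c j)) (hlog : 2 * (Real.log 2 * N) ≤ 2 * ε ^ 2 * m)
    {d : ℕ} (hd : 2 * d ≤ m)
    (honce : ∀ S : Finset (Fin m), 1 ≤ S.card → S.card < 2 * d → ∃ v, Pool.Agent.W888.GX.mu c S v = 1)
    (hn : 16 * m ≤ n)
    (T : CmpTree (Fin n × Fin n → Bool) (Fin n → Bool)
      (LowRank (Fin n × Fin n → Bool) (Fin n → Bool)))
    (hT : Tells (3 * m) (7 / 6 - ε) fun a w => (T.label a w).val a w) :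
    2 ^ d ≤ 2 * (T.total fun l => l.r + 1) ∨
      2 ^ N ≤ 6 * (T.total fun l => l.r + 1) ^ 2 := by
  classical
  obtain ⟨ι⟩ : Nonempty (Vx m (Bool × Bool) (Bool × Bool) ↪ Fin n) := by
    refine Function.Embedding.nonempty_of_card_le ?_
    simp only [Fintype.card_prod, Fintype.card_fin, Fintype.card_bool]
    omega
  have hι := ι.injective
  have hcount : ∀ (x : Fin m × Bool → Bool) (y : (Fin m → Bool) × (Fin m → Bool))
      (z : Fin N → Bool), (univ.filter fun i => ∃ β, ∀ j,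
        loc3 x (i, (y.1 i, y.2 i), β) j = z (c i j)).card + vio c (comb x y) z = m := by
    intro x y z
    have h1 := Finset.card_filter_add_card_filter_not (s := (univ : Finset (Fin m)))
      (fun i => ev c z i = comb x y i)
    rw [card_univ, Fintype.card_fin] at h1
    unfold vio
    refine Eq.trans ?_ h1
    congr 2
    ext i
    simp only [mem_filter, mem_univ, true_and, loc3_sat]
  have key := abs_tree (m := m) (O := Bool) (Ω := Fin N → Bool) Fintype.card_pos (ev c)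
    (by rw [Fintype.card_bool]; norm_num) hd (fun S hS1 hS2 => by
      obtain ⟨v, hv⟩ := honce S hS1 hS2
      exact sum_chi_ev c S v hv) (fun _ => nearSet c ε)
    (fun _ z => ev_mem_nearSet hε1 hm c z) (W := 2 ^ N) (by positivity)
    (fun _ => card_nearSet_big hε le_rfl hlog c)
    (fun x => gr c (loc3 x) ι) (fun y => wt ι fun i => (y.1 i, y.2 i)) T
    (fun x y z hxy => by
      refine (hT _ _ (gr_graph hι hci)).1 ?_
      obtain ⟨C, hC1, hC2⟩ := small_cover (c := c) (la := loc3 x) hι (fun i => (y.1 i, y.2 i)) z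
        (fun i => by rw [loc3_sat, hxy])
      refine ⟨C, hC1, ?_⟩
      rw [Fintype.card_prod, Fintype.card_bool] at hC2
      omega)
    (fun x y hxy => by
      refine (hT _ _ (gr_graph hι hci)).2 fun C hC => ?_
      have h0 : ∀ z, (1 / 2 - ε) * m ≤ (vio c (comb x y) z : ℝ) := by
        by_contra hcon
        exact hxy (mem_filter.2 ⟨mem_univ _, hcon⟩)
      have h1 := large_cover (c := c) (la := loc3 x) hι (loc3_inj x) (fun i => (y.1 i, y.2 i))
        (S := ⌊(1 / 2 + ε) * m⌋₊) (fun z => by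
          refine Nat.le_floor ?_
          have h2 : (((univ.filter fun i => ∃ β, ∀ j,
              loc3 x (i, (y.1 i, y.2 i), β) j = z (c i j)).card : ℕ) : ℝ) +
              (vio c (comb x y) z : ℝ) = m := by exact_mod_cast hcount x y z
          have h3 := h0 z
          convert (by linarith : (((univ.filter fun i => ∃ β, ∀ j,
              loc3 x (i, (y.1 i, y.2 i), β) j = z (c i j)).card : ℕ) : ℝ) ≤ (1 / 2 + ε) * m)
            using 1) C hC
      rw [Fintype.card_prod, Fintype.card_bool] at h1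
      have h2 : ((⌊(1 / 2 + ε) * m⌋₊ : ℕ) : ℝ) ≤ (1 / 2 + ε) * m :=
        Nat.floor_le (by positivity)
      have h3 : (2 * 2 * m : ℝ) ≤ weight (wt ι fun i => (y.1 i, y.2 i)) C +
          (⌊(1 / 2 + ε) * m⌋₊ : ℕ) := by exact_mod_cast h1
      have h4 : 0 ≤ ε * m := by positivity
      push_cast
      nlinarith)
  rw [Fintype.card_bool] at key
  rcases key with h1 | h1
  · left; exact_mod_cast h1
  · right; exact_mod_cast h1

theorem vc_six_main {ε : ℝ} (hε : 0 < ε) (hε1 : ε < 1 / 2) :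
    ∃ γ : ℝ, 0 < γ ∧ ∃ n₀ : ℕ, ∀ n : ℕ, n₀ ≤ n →
    ∃ k : ℕ, 0 < k ∧ ∀ T : GraphTree n (LowRank (Fin n × Fin n → Bool) (Fin n → Bool)),
      Tells k (7 / 6 - ε) (fun a w => (T.label a w).val a w) →
      (2 : ℝ) ^ (γ * n) ≤ (T.total fun l => l.r + 1 : ℕ) := by
  obtain ⟨M, K, hM, hK, n₁, hsys⟩ := exists_system ε hε
  obtain ⟨D, hD⟩ : ∃ D, D = 16 * M * K := ⟨_, rfl⟩
  have hMK : 1 ≤ M * K := Nat.mul_pos hM (by omega)
  have hD16 : 16 ≤ D := by rw [hD, mul_assoc]; omega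
  refine ⟨1 / (4 * D), by positivity, 16 * M * n₁ + 8 * D, fun n hn => ?_⟩
  obtain ⟨N, hN⟩ : ∃ N, N = n / (16 * M) := ⟨_, rfl⟩
  have hN1 : n₁ ≤ N := by
    rw [hN, Nat.le_div_iff_mul_le (by omega), mul_comm]
    omega
  have hNM : 16 * M * N ≤ n := by rw [hN]; exact Nat.mul_div_le _ _
  obtain ⟨m, c, hm1, hm2, hlog, hinj, honce⟩ := hsys N hN1
  obtain ⟨d, hd⟩ : ∃ d, d = N / K := ⟨_, rfl⟩
  have hdD : d = n / D := by
    rw [hd, hN, Nat.div_div_eq_div_mul, hD]
  have hd8 : 8 ≤ d := by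
    rw [hdD, Nat.le_div_iff_mul_le (by omega)]
    omega
  have hdK : 4 * d ≤ N := by
    calc 4 * d ≤ K * d := Nat.mul_le_mul_right _ hK
      _ ≤ N := by rw [hd]; exact Nat.mul_div_le _ _
  refine ⟨3 * m, by omega, fun T hT => ?_⟩
  have key := vc_six hε hε1 c (by omega) hinj hlog (d := d) (by omega)
    (fun S hS1 hS2 => honce S hS1 (by rw [← hd]; omega)) (n := n) (by
      calc 16 * m ≤ 16 * (M * N) := Nat.mul_le_mul_left _ hm1
        _ = 16 * M * N := by ring
        _ ≤ n := hNM) T hT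
  obtain ⟨t, ht⟩ : ∃ t : ℕ, t = T.total fun l => l.r + 1 := ⟨_, rfl⟩
  rw [← ht] at key ⊢
  have hmain : 2 ^ d ≤ 2 * t := by
    rcases key with h1 | h1
    · exact h1
    · have h4 : 2 ^ (2 * d + 1) ≤ 6 * t ^ 2 :=
        (Nat.pow_le_pow_right (by norm_num) (by omega)).trans h1
      have h5 : (2 ^ d) ^ 2 ≤ (2 * t) ^ 2 := by
        rw [pow_succ, mul_comm 2 d, pow_mul] at h4
        rw [mul_pow]
        omega
      exact (Nat.pow_le_pow_iff_left (by norm_num)).1 h5
  have h1 : (2 : ℝ) ^ ((d : ℝ) - 1) ≤ t := by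
    rw [Real.rpow_sub two_pos, Real.rpow_natCast, Real.rpow_one, div_le_iff₀ two_pos]
    have h1 : (2 : ℝ) ^ d ≤ 2 * t := by exact_mod_cast hmain
    linarith
  refine le_trans (Real.rpow_le_rpow_of_exponent_le one_le_two ?_) h1
  have h2 : n < D * (d + 1) := by
    rw [hdD]
    exact Nat.lt_mul_div_succ n (by omega)
  have h3 : (n : ℝ) ≤ D * (d + 1) := by exact_mod_cast h2.le
  have hD0 : (0 : ℝ) < D := by exact_mod_cast (by omega : 0 < D)
  have h4 : 1 / (4 * (D : ℝ)) * n ≤ (d + 1) / 4 := by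
    rw [div_mul_eq_mul_div, one_mul, div_le_iff₀ (by positivity)]
    calc (n : ℝ) ≤ D * (d + 1) := h3
      _ = _ := by ring
  have h5 : (8 : ℝ) ≤ d := by exact_mod_cast hd8
  linarith

end Pool.Agent.Y601.LD
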