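import Pool.Agent.Y601.LD.Girth
import Pool.Agent.Y601.LD.VCGraph

set_option autoImplicit false
set_option linter.unusedSectionVars false

/-!
Vertex cover with the ratio two.
-/

namespace Pool.Agent.Y601.LD

open Finset Pool.Agent.H532R2.MC

variable {s k' n : ℕ}

/-- the numbering of the checks -/
def num (i : Fin s) (j : Fin k') : Fin (s * k') := finProdFinEquiv (i, j)

/-- the checks `z (c i 0) + z (c i (j + 1))` -/
def chk (c : Fin s → Fin (k' + 1) → Fin s) (z : Fin s → Bool) (b : Fin (s * k')) : Bool :=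
  z (c (finProdFinEquiv.symm b).1 0) ^^ z (c (finProdFinEquiv.symm b).1
    (finProdFinEquiv.symm b).2.succ)

theorem chk_num (c : Fin s → Fin (k' + 1) → Fin s) (z : Fin s → Bool) (i : Fin s) (j : Fin k') :
    chk c z (num i j) = (z (c i 0) ^^ z (c i j.succ)) := by
  unfold chk num
  rw [Equiv.symm_apply_apply]

theorem sg_pow (b : Bool) (n : ℕ) : sg b ^ n = if Odd n then sg b else 1 := by
  rcases Nat.even_or_odd n with h | h
  · rw [if_neg (Nat.not_odd_iff_even.2 h)]
    obtain ⟨m, rfl⟩ := h
    rw [← two_mul, pow_mul, sq, sg_sq, one_pow]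
  · rw [if_pos h]
    obtain ⟨m, rfl⟩ := h
    rw [pow_succ, pow_mul, sq, sg_sq, one_pow, one_mul]

/-- the character sums of the checks vanish -/
theorem sum_chi_chk {g : ℕ} (c : Fin s → Fin (k' + 1) → Fin s)
    (hc : ∀ J : Finset (Fin s), 1 ≤ J.card → J.card ≤ g → k' * J.card < (imgk c J).card)
    (S : Finset (Fin (s * k'))) (hS1 : 1 ≤ S.card) (hS2 : S.card ≤ g) :
    ∑ z, chi S (chk c z) = 0 := by
  classical
  let S' : Finset (Fin s × Fin k') := S.image finProdFinEquiv.symm
  have hS' : S'.card = S.card := card_image_of_injective _ finProdFinEquiv.symm.injective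
  let J : Finset (Fin s) := S'.image Prod.fst
  have hJ1 : 1 ≤ J.card := by
    rw [Nat.one_le_iff_ne_zero, Ne, card_eq_zero, image_eq_empty, ← Ne, ← nonempty_iff_ne_empty,
      ← card_pos]
    omega
  have hJ2 : J.card ≤ g := by
    have : J.card ≤ S'.card := card_image_le
    omega
  let row : Fin s → Finset (Fin s × Fin k') := fun i => S'.filter fun q => q.1 = i
  let A : Finset (Fin s) := univ.filter fun i => Odd (row i).card
  let U₀ : Finset (Fin s × Fin (k' + 1)) := A.image fun i => (i, 0)
  let U₁ : Finset (Fin s × Fin (k' + 1)) := S'.image fun q => (q.1, q.2.succ)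
  have hdisj : Disjoint U₀ U₁ := by
    rw [Finset.disjoint_left]
    intro q h0 h1
    obtain ⟨i, -, rfl⟩ := mem_image.1 h0
    obtain ⟨q, -, hq⟩ := mem_image.1 h1
    rw [Prod.mk.injEq] at hq
    exact Fin.succ_ne_zero _ hq.2
  have hchi : ∀ z, chi S (chk c z) = ∏ p ∈ U₀ ∪ U₁, sg (z (c p.1 p.2)) := by
    intro z
    rw [Finset.prod_union hdisj]
    have h1 : chi S (chk c z) = ∏ q ∈ S', (sg (z (c q.1 0)) * sg (z (c q.1 q.2.succ))) := by
      unfold chi
      rw [Finset.prod_image fun a _ b _ h => finProdFinEquiv.symm.injective h]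
      exact Finset.prod_congr rfl fun b _ => sg_xor _ _
    rw [h1, Finset.prod_mul_distrib]
    congr 1
    · have h2 : ∏ q ∈ S', sg (z (c q.1 0)) = ∏ i : Fin s, sg (z (c i 0)) ^ (row i).card := by
        rw [← Finset.prod_fiberwise S' (fun q => q.1) (fun q => sg (z (c q.1 0)))]
        refine Finset.prod_congr rfl fun i _ => ?_
        rw [← Finset.prod_const]
        refine Finset.prod_congr rfl fun q hq => ?_
        rw [(mem_filter.1 hq).2]
      rw [h2, Finset.prod_congr rfl fun i _ => sg_pow _ _, ← Finset.prod_filter,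
        Finset.prod_image fun i _ i' _ h => congrArg Prod.fst h]
    · have h3 : ∏ p ∈ U₁, sg (z (c p.1 p.2)) = ∏ q ∈ S', sg (z (c q.1 q.2.succ)) :=
        Finset.prod_image fun q _ q' _ h => by
          rw [Prod.mk.injEq] at h
          exact Prod.ext h.1 (Fin.succ_injective _ h.2)
      exact h3.symm
  rw [Finset.sum_congr rfl fun z _ => hchi z]
  have hUJ : ∀ q ∈ U₀ ∪ U₁, q.1 ∈ J := by
    intro q hq
    rcases mem_union.1 hq with h | h
    · obtain ⟨i, hi, rfl⟩ := mem_image.1 h
      have h2 : 0 < (row i).card := (mem_filter.1 hi).2.pos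
      obtain ⟨q, hq⟩ := card_pos.1 h2
      obtain ⟨hq1, hq2⟩ := mem_filter.1 hq
      exact mem_image.2 ⟨q, hq1, hq2⟩
    · obtain ⟨q, hq', rfl⟩ := mem_image.1 h
      exact mem_image.2 ⟨q, hq', rfl⟩
  have hU2 : ∀ i ∈ J, 2 ≤ ((U₀ ∪ U₁).filter fun q => q.1 = i).card := by
    intro i hi
    obtain ⟨q, hq, hqi⟩ := mem_image.1 hi
    have hrow : (row i).card = ((row i).image fun q => (q.1, q.2.succ)).card := by
      rw [card_image_of_injective]
      intro q q' h
      rw [Prod.mk.injEq] at h
      exact Prod.ext h.1 (Fin.succ_injective _ h.2)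
    have hsub : ((row i).image fun q => (q.1, q.2.succ)) ⊆
        (U₀ ∪ U₁).filter fun q => q.1 = i := by
      intro p hp
      obtain ⟨q, hq, rfl⟩ := mem_image.1 hp
      obtain ⟨hq1, hq2⟩ := mem_filter.1 hq
      exact mem_filter.2 ⟨mem_union_right _ (mem_image.2 ⟨q, hq1, rfl⟩), hq2⟩
    have h1 : 1 ≤ (row i).card := card_pos.2 ⟨q, mem_filter.2 ⟨hq, hqi⟩⟩
    rcases Nat.lt_or_ge 1 (row i).card with h2 | h2
    · exact le_trans (by rw [← hrow]; exact h2) (card_le_card hsub)
    · have h3 : (row i).card = 1 := le_antisymm h2 h1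
      have h4 : (i, (0 : Fin (k' + 1))) ∉ (row i).image fun q => (q.1, q.2.succ) := by
        intro h5
        obtain ⟨q, -, h6⟩ := mem_image.1 h5
        rw [Prod.mk.injEq] at h6
        exact Fin.succ_ne_zero _ h6.2
      have h5 : insert (i, (0 : Fin (k' + 1))) ((row i).image fun q => (q.1, q.2.succ)) ⊆
          (U₀ ∪ U₁).filter fun q => q.1 = i := by
        intro p hp
        rcases mem_insert.1 hp with rfl | hp
        · refine mem_filter.2 ⟨mem_union_left _ (mem_image.2 ⟨i, mem_filter.2 ⟨mem_univ _, ?_⟩,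
            rfl⟩), rfl⟩
          rw [h3]
          exact odd_one
        · exact hsub hp
      have h6 := card_le_card h5
      rw [card_insert_of_notMem h4, ← hrow, h3] at h6
      exact h6
  obtain ⟨q, hq, h1⟩ := exists_used_once c J (hc J hJ1 hJ2) (U₀ ∪ U₁) hUJ hU2
  exact sum_prod_once c _ hq h1

/-- few right-hand sides are nearly satisfiable -/
theorem card_near_chk {E : ℕ} (c : Fin s → Fin (4 * E + 1) → Fin s)
    (G : Finset (Fin (s * (4 * E)) → Bool))
    (hG : ∀ t ∈ G, ∃ z : Fin s → Bool, s ≤ E * (univ.filter fun i =>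
      ∀ j, (z (c i 0) ^^ t (num i j)) = z (c i j.succ)).card) :
    G.card * 2 ^ (2 * s) ≤ 2 ^ (s * (4 * E)) := by
  classical
  let F : (Fin s → Bool) × Finset (Fin s) → Finset (Fin (s * (4 * E)) → Bool) := fun q =>
    Fintype.piFinset fun b => if (finProdFinEquiv.symm b).1 ∈ q.2 then
      {q.1 (c (finProdFinEquiv.symm b).1 0) ^^ q.1 (c (finProdFinEquiv.symm b).1
        (finProdFinEquiv.symm b).2.succ)} else univ
  have hsub : G ⊆ ((univ : Finset ((Fin s → Bool) × Finset (Fin s))).filter fun q =>
      s ≤ E * q.2.card).biUnion F := by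
    intro t ht
    obtain ⟨z, hz⟩ := hG t ht
    refine mem_biUnion.2 ⟨(z, univ.filter fun i => ∀ j, (z (c i 0) ^^ t (num i j)) = z (c i j.succ)),
      mem_filter.2 ⟨mem_univ _, hz⟩, ?_⟩
    simp only [F]
    rw [Fintype.mem_piFinset]
    intro b
    by_cases hb : (finProdFinEquiv.symm b).1 ∈ univ.filter fun i =>
        ∀ j, (z (c i 0) ^^ t (num i j)) = z (c i j.succ)
    · rw [if_pos hb, mem_singleton]
      have h1 := (mem_filter.1 hb).2 (finProdFinEquiv.symm b).2
      have h2 : num (finProdFinEquiv.symm b).1 (finProdFinEquiv.symm b).2 = b := by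
        unfold num
        exact finProdFinEquiv.apply_symm_apply b
      rw [h2] at h1
      rw [← h1]
      exact (Pool.Agent.Y601.GS.xor_cancel _ _).symm
    · rw [if_neg hb]
      exact mem_univ _
  have hF : ∀ q ∈ (univ : Finset ((Fin s → Bool) × Finset (Fin s))).filter (fun q =>
      s ≤ E * q.2.card), (F q).card * 2 ^ (4 * s) ≤ 2 ^ (s * (4 * E)) := by
    intro q hq
    have hq1 := (mem_filter.1 hq).2
    have h1 : (F q).card * 2 ^ (q.2.card * (4 * E)) = 2 ^ (s * (4 * E)) := by
      have h2 : (F q).card = ∏ b : Fin (s * (4 * E)), if (finProdFinEquiv.symm b).1 ∈ q.2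
          then 1 else 2 := by
        simp only [F]
        rw [Fintype.card_piFinset]
        refine Finset.prod_congr rfl fun b _ => ?_
        split_ifs
        · rw [card_singleton]
        · rw [card_univ, Fintype.card_bool]
      have h3 : 2 ^ (q.2.card * (4 * E)) = ∏ b : Fin (s * (4 * E)),
          if (finProdFinEquiv.symm b).1 ∈ q.2 then 2 else 1 := by
        rw [← Finset.prod_filter, Finset.prod_const]
        congr 1
        have h4 : (univ.filter fun b : Fin (s * (4 * E)) => (finProdFinEquiv.symm b).1 ∈ q.2).card =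
            (q.2 ×ˢ (univ : Finset (Fin (4 * E)))).card := by
          refine Finset.card_bij' (fun b _ => finProdFinEquiv.symm b)
            (fun p _ => finProdFinEquiv p) ?_ ?_ ?_ ?_
          · intro b hb
            exact mem_product.2 ⟨(mem_filter.1 hb).2, mem_univ _⟩
          · intro p hp
            refine mem_filter.2 ⟨mem_univ _, ?_⟩
            rw [Equiv.symm_apply_apply]
            exact (mem_product.1 hp).1
          · intro b _
            exact finProdFinEquiv.apply_symm_apply b
          · intro p _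
            exact finProdFinEquiv.symm_apply_apply p
        rw [h4, card_product, card_univ, Fintype.card_fin]
      rw [h2, h3, ← Finset.prod_mul_distrib]
      have h4 : ∀ b : Fin (s * (4 * E)), ((if (finProdFinEquiv.symm b).1 ∈ q.2 then 1 else 2) *
          (if (finProdFinEquiv.symm b).1 ∈ q.2 then 2 else 1) : ℕ) = 2 := by
        intro b
        split_ifs <;> rfl
      rw [Finset.prod_congr rfl fun b _ => h4 b, Finset.prod_const, card_univ, Fintype.card_fin]
    rw [← h1]
    refine Nat.mul_le_mul_left _ (Nat.pow_le_pow_right (by norm_num) ?_)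
    calc 4 * s ≤ 4 * (E * q.2.card) := Nat.mul_le_mul_left _ hq1
      _ = q.2.card * (4 * E) := by ring
  have h1 := (card_le_card hsub).trans card_biUnion_le
  have h2 : (∑ q ∈ (univ : Finset ((Fin s → Bool) × Finset (Fin s))).filter (fun q =>
      s ≤ E * q.2.card), (F q).card) * 2 ^ (4 * s) ≤ 2 ^ (2 * s) * 2 ^ (s * (4 * E)) := by
    rw [Finset.sum_mul]
    refine (Finset.sum_le_sum hF).trans ?_
    rw [Finset.sum_const, smul_eq_mul]
    refine Nat.mul_le_mul_right _ ?_
    refine (card_le_univ _).trans (le_of_eq ?_)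
    rw [Fintype.card_prod, Fintype.card_fun, Fintype.card_finset, Fintype.card_bool,
      Fintype.card_fin, ← pow_add, two_mul]
  have h3 : 2 ^ (2 * s) * (G.card * 2 ^ (2 * s)) ≤ 2 ^ (2 * s) * 2 ^ (s * (4 * E)) := by
    calc 2 ^ (2 * s) * (G.card * 2 ^ (2 * s)) = G.card * 2 ^ (4 * s) := by
          rw [show 4 * s = 2 * s + 2 * s by ring, pow_add]
          ring
      _ ≤ _ := (Nat.mul_le_mul_right _ h1).trans h2
  exact Nat.le_of_mul_le_mul_left h3 (by positivity)

/-! ### The instances -/

variable {O : Type} [Fintype O] [DecidableEq O]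

/-- the local assignments -/
def loc (x : Fin (s * k') × O → Bool) (u : Vx s (Fin k' → O × Bool) Bool) : Fin (k' + 1) → Bool :=
  Fin.cons u.2.2 fun j => u.2.2 ^^ (x (num u.1 j, (u.2.1 j).1) ^^ (u.2.1 j).2)

/-- the chosen versions -/
def ver (y : (Fin (s * k') → O) × (Fin (s * k') → Bool)) (i : Fin s) : Fin k' → O × Bool :=
  fun j => (y.1 (num i j), y.2 (num i j))

theorem loc_inj (x : Fin (s * k') × O → Bool) (i : Fin s) (p : Fin k' → O × Bool) :
    Function.Injective fun β => loc x (i, p, β) := fun β β' h => congrFun h 0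

theorem loc_sat (c : Fin s → Fin (k' + 1) → Fin s) (x : Fin (s * k') × O → Bool)
    (y : (Fin (s * k') → O) × (Fin (s * k') → Bool)) (z : Fin s → Bool) (i : Fin s) :
    (∃ β, ∀ j, loc x (i, ver y i, β) j = z (c i j)) ↔
      ∀ j, (z (c i 0) ^^ comb x y (num i j)) = z (c i j.succ) := by
  constructor
  · rintro ⟨β, hβ⟩ j
    have h0 := hβ 0
    have h1 := hβ j.succ
    rw [← h0, ← h1]
    rfl
  · intro h
    refine ⟨z (c i 0), fun j => ?_⟩
    refine Fin.cases ?_ (fun j => ?_) j
    · rfl
    · exact h j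

/-- **Vertex cover, ratio two, for one system.** -/
theorem vc_two {E g d : ℕ} (hE : 1 ≤ E) (hs : 1 ≤ s)
    (hg : g * (2 * 3 ^ (4 * E + 1) * (4 * E)) ^ (g + 1) ≤ s) (hg1 : 1 ≤ g) (hd : 2 * d ≤ g + 1)
    (hO : 1 ≤ Fintype.card O) (hn : s * ((Fintype.card O * 2) ^ (4 * E) * 2) ≤ n)
    (T : CmpTree (Fin n × Fin n → Bool) (Fin n → Bool)
      (LowRank (Fin n × Fin n → Bool) (Fin n → Bool)))
    (hT : Tells s (2 - 1 / E) fun a w => (T.label a w).val a w) :
    Fintype.card O ^ d ≤ 2 * (T.total fun l => l.r + 1) ∨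
      2 ^ (2 * s) ≤ 6 * (T.total fun l => l.r + 1) ^ 2 := by
  classical
  obtain ⟨c, hc⟩ := exists_girth hs (k' := 4 * E) (g := g) (by omega) hg
  have hci : ∀ i, Function.Injective (c i) := by
    intro i
    have h1 := hc {i} (by rw [card_singleton]) (by rw [card_singleton]; exact hg1)
    rw [card_singleton, mul_one] at h1
    have h2 : imgk c {i} = univ.image (c i) := by
      unfold imgk
      ext v
      simp only [mem_image, mem_product, mem_singleton, mem_univ, and_true, Prod.exists]
      constructor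
      · rintro ⟨_, j, rfl, rfl⟩
        exact ⟨j, trivial, rfl⟩
      · rintro ⟨j, -, rfl⟩
        exact ⟨i, j, rfl, rfl⟩
    rw [h2] at h1
    have h3 : (univ.image (c i)).card = (univ : Finset (Fin (4 * E + 1))).card := by
      refine le_antisymm card_image_le ?_
      rw [card_univ, Fintype.card_fin]
      exact h1
    exact fun a b hab => Finset.card_image_iff.1 h3 (mem_coe.2 (mem_univ a))
      (mem_coe.2 (mem_univ b)) hab
  obtain ⟨ι⟩ : Nonempty (Vx s (Fin (4 * E) → O × Bool) Bool ↪ Fin n) := by
    refine Function.Embedding.nonempty_of_card_le ?_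
    rw [Fintype.card_prod, Fintype.card_prod, Fintype.card_fun, Fintype.card_prod,
      Fintype.card_fin, Fintype.card_fin, Fintype.card_bool, Fintype.card_fin]
    exact hn
  have hι := ι.injective
  have hdm : 2 * d ≤ s * (4 * E) := by
    have h1 : g ≤ s := le_trans (Nat.le_mul_of_pos_right _ (by positivity)) hg
    have h2 : s * 4 ≤ s * (4 * E) := Nat.mul_le_mul_left _ (by omega)
    omega
  let G : Finset (Fin (s * (4 * E)) → Bool) := univ.filter fun t => ∃ z : Fin s → Bool,
    s ≤ E * (univ.filter fun i => ∀ j, (z (c i 0) ^^ t (num i j)) = z (c i j.succ)).card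
  have hGc := card_near_chk c G fun t ht => (mem_filter.1 ht).2
  have key := abs_tree (m := s * (4 * E)) (O := O) (Ω := Fin s → Bool) Fintype.card_pos (chk c)
    hO hdm (fun S hS1 hS2 => sum_chi_chk c hc S hS1 (by omega)) (fun _ => G)
    (fun _ z => mem_filter.2 ⟨mem_univ _, z, by
      have h1 : (univ.filter fun i => ∀ j, (z (c i 0) ^^ chk c z (num i j)) = z (c i j.succ)) =
          univ := by
        refine filter_true_of_mem fun i _ j => ?_
        rw [chk_num]
        exact Pool.Agent.Y601.GS.xor_cancel _ _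
      rw [h1, card_univ, Fintype.card_fin]
      exact Nat.le_mul_of_pos_left _ hE⟩) (W := 2 ^ (2 * s)) (by positivity)
    (fun _ => by exact_mod_cast hGc)
    (fun x => gr c (loc x) ι) (fun y => wt ι (ver y)) T
    (fun x y z hxy => by
      refine (hT _ _ (gr_graph hι hci)).1 ?_
      obtain ⟨C, hC1, hC2⟩ := small_cover (c := c) (la := loc x) hι (ver y) z (fun i => by
        rw [loc_sat, hxy]
        intro j
        rw [chk_num]
        exact Pool.Agent.Y601.GS.xor_cancel _ _)
      refine ⟨C, hC1, ?_⟩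
      rw [Fintype.card_bool] at hC2
      omega)
    (fun x y hxy => by
      refine (hT _ _ (gr_graph hι hci)).2 fun C hC => ?_
      have h1 := large_cover (c := c) (la := loc x) hι (loc_inj x) (ver y) (S := s / E)
        (fun z => by
          rw [Nat.le_div_iff_mul_le (by omega), mul_comm]
          by_contra hcon
          refine hxy (mem_filter.2 ⟨mem_univ _, z, ?_⟩)
          refine (not_le.1 hcon).le.trans (le_of_eq ?_)
          congr 2
          ext i
          simp only [mem_filter, mem_univ, true_and, loc_sat]) C hC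
      rw [Fintype.card_bool] at h1
      have h2 : ((s / E : ℕ) : ℝ) ≤ s / E := Nat.cast_div_le
      have h3 : (2 * s : ℝ) ≤ weight (wt ι (ver y)) C + (s / E : ℕ) := by exact_mod_cast h1
      calc (2 - 1 / (E : ℝ)) * s = 2 * s - s / E := by ring
        _ ≤ _ := by linarith)
  rcases key with h1 | h1
  · left; exact_mod_cast h1
  · right; exact_mod_cast h1

end Pool.Agent.Y601.LD
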